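import Mathlib

/-!
# A weakly geodesically automatic group that is not ShortLex-automatic for any order

The group is `G = < x, y, t, p | t^2, p^2, [t, p], [x, t x t], [y, p y p] >` with the generating
set `A = {x, x^-1, y, y^-1, t, p}`.  Writing words in a suitable normal form gives an automatic
structure consisting of geodesics.  For an order with `t < p` the ShortLex words for
`p x^n t x^n` and `p x^n t x^n t` are `p x^n t x^n` and `t p x^n t x^n`, and these do not fellow
travel; for `p < t` one uses `y` instead.
-/

namespace Pool.Agent.Results.MP_3489e4_al.WeakGeoNotShortLex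

/-! ### The notions in the statement -/

/-- The padded pair `(u, v)`: the two words are read in parallel, and the shorter one is padded
at the end with the new symbol `none`.  The i-th symbol of the pair consists of the i-th letters
of `u` and `v`, where `w[i]?` is `none` beyond the end of `w`. -/
def padPair {α : Type} (u v : List α) : List (Option α × Option α) :=
  List.ofFn (fun i : Fin (max u.length v.length) => (u[(i : ℕ)]?, v[(i : ℕ)]?))

/-- The element of `G` represented by a word over the finite subset `A` of `G`. -/
def wordVal {G : Type} [Group G] {A : Finset G} (w : List A) : G :=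
  (w.map (fun a : A => (a : G))).prod

/-- `L` is the language of an automatic structure on `G` over `A`: `L` is regular, every element
of `G` is represented by a word of `L`, and for each `x ∈ A ∪ {1}` the set of padded pairs
`(u, v)` of words of `L` with `u x = v` in `G` is accepted by a finite automaton. -/
def IsAutomaticStructure {G : Type} [Group G] (A : Finset G) (L : Language A) : Prop :=
  L.IsRegular ∧ (∀ g : G, ∃ w ∈ L, wordVal w = g) ∧
  ∀ x : G, x = 1 ∨ x ∈ A →
    Language.IsRegular ({p | ∃ u ∈ L, ∃ v ∈ L, wordVal u * x = wordVal v ∧ p = padPair u v} :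
      Language (Option A × Option A))

/-- A word over `A` is geodesic if no word over `A` with the same value is shorter. -/
def IsGeodesic {G : Type} [Group G] {A : Finset G} (w : List A) : Prop :=
  ∀ v : List A, wordVal v = wordVal w → w.length ≤ v.length

/-- `G` is weakly geodesically automatic with respect to `A`. -/
def WeaklyGeodesicallyAutomatic {G : Type} [Group G] (A : Finset G) : Prop :=
  ∃ L : Language A, IsAutomaticStructure A L ∧ ∀ w ∈ L, IsGeodesic w

/-- The words over `A` that are ShortLex-least among all words with the same value, for the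
total order `r` on `A`. -/
def ShortLexLanguage {G : Type} [Group G] (A : Finset G) (r : LinearOrder A) : Language A :=
  {w | ∀ v : List A, wordVal v = wordVal w → v ≠ w → List.Shortlex r.lt w v}

/-! ### Automata -/

section automata

/-- Padded pair of two words. -/
def pad {α : Type} : List α → List α → List (Option α × Option α)
  | [], [] => []
  | a :: u, [] => (some a, none) :: pad u []
  | [], b :: v => (none, some b) :: pad [] v
  | a :: u, b :: v => (some a, some b) :: pad u v

theorem pad_length {α : Type} : ∀ u v : List α, (pad u v).length = max u.length v.length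
  | [], [] => by simp [pad]
  | a :: u, [] => by simp [pad, pad_length u []]
  | [], b :: v => by simp [pad, pad_length [] v]
  | a :: u, b :: v => by simp [pad, pad_length u v]

theorem pad_take {α : Type} : ∀ (t : ℕ) (u v : List α),
    (pad u v).take t = pad (u.take t) (v.take t)
  | 0, u, v => by simp [pad]
  | t + 1, [], [] => by simp [pad]
  | t + 1, a :: u, [] => by simpa [pad] using pad_take t u []
  | t + 1, [], b :: v => by simpa [pad] using pad_take t [] v
  | t + 1, a :: u, b :: v => by simpa [pad] using pad_take t u v

theorem pad_drop {α : Type} : ∀ (t : ℕ) (u v : List α),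
    (pad u v).drop t = pad (u.drop t) (v.drop t)
  | 0, u, v => by simp
  | t + 1, [], [] => by simp [pad]
  | t + 1, a :: u, [] => by simpa [pad] using pad_drop t u []
  | t + 1, [], b :: v => by simpa [pad] using pad_drop t [] v
  | t + 1, a :: u, b :: v => by simpa [pad] using pad_drop t u v

theorem pad_fst {α : Type} : ∀ u v : List α, (pad u v).filterMap Prod.fst = u
  | [], [] => by simp [pad]
  | a :: u, [] => by simp [pad, pad_fst u []]
  | [], b :: v => by simp [pad, pad_fst [] v]
  | a :: u, b :: v => by simp [pad, pad_fst u v]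

theorem pad_snd {α : Type} : ∀ u v : List α, (pad u v).filterMap Prod.snd = v
  | [], [] => by simp [pad]
  | a :: u, [] => by simp [pad, pad_snd u []]
  | [], b :: v => by simp [pad, pad_snd [] v]
  | a :: u, b :: v => by simp [pad, pad_snd u v]

theorem pad_inj {α : Type} {u v u' v' : List α} (h : pad u v = pad u' v') : u = u' ∧ v = v' := by
  constructor
  · rw [← pad_fst u v, h, pad_fst]
  · rw [← pad_snd u v, h, pad_snd]

/-- padding a concatenation -/
theorem pad_append {α : Type} : ∀ (u v u' v' : List α),
    (u.length < max u.length v.length → u' = []) → (v.length < max u.length v.length → v' = []) →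
    pad (u ++ u') (v ++ v') = pad u v ++ pad u' v'
  | [], [], u', v', _, _ => by simp [pad]
  | a :: u, [], u', v', h1, h2 => by
      have : v' = [] := h2 (by simp)
      subst this
      simpa [pad] using pad_append u [] u' [] (by intro h; exfalso; simp at h) (by simp)
  | [], b :: v, u', v', h1, h2 => by
      have : u' = [] := h1 (by simp)
      subst this
      simpa [pad] using pad_append [] v [] v' (by simp) (by intro h; exfalso; simp at h)
  | a :: u, b :: v, u', v', h1, h2 => by
      simpa [pad] using pad_append u v u' v'
        (by intro h; apply h1; simp at h ⊢; omega) (by intro h; apply h2; simp at h ⊢; omega)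

theorem pad_getElem {α : Type} : ∀ (u v : List α) (i : ℕ) (h : i < (pad u v).length),
    (pad u v)[i] = (u[i]?, v[i]?)
  | [], [], i, h => by simp [pad] at h
  | a :: u, [], 0, h => by simp [pad]
  | a :: u, [], i + 1, h => by
      have := pad_getElem u [] i (by simpa [pad] using h)
      simpa [pad] using this
  | [], b :: v, 0, h => by simp [pad]
  | [], b :: v, i + 1, h => by
      have := pad_getElem [] v i (by simpa [pad] using h)
      simpa [pad] using this
  | a :: u, b :: v, 0, h => by simp [pad]
  | a :: u, b :: v, i + 1, h => by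
      have := pad_getElem u v i (by simpa [pad] using h)
      simpa [pad] using this

theorem padPair_eq {α : Type} (u v : List α) : padPair u v = pad u v := by
  unfold padPair
  apply List.ext_getElem
  · simp [pad_length]
  · intro i h1 h2
    rw [pad_getElem u v i h2]
    simp

variable {G : Type} [Group G] {α : Type}

/-- evaluation -/
def ev (f : α → G) (w : List α) : G := (w.map f).prod

@[simp] theorem ev_nil (f : α → G) : ev f [] = 1 := by simp [ev]
@[simp] theorem ev_cons (f : α → G) (a : α) (w : List α) : ev f (a :: w) = f a * ev f w := by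
  simp [ev]
@[simp] theorem ev_append (f : α → G) (u w : List α) : ev f (u ++ w) = ev f u * ev f w := by
  simp [ev]

/-- the language of padded pairs -/
def pairLang (f : α → G) (L : Language α) (x : G) : Language (Option α × Option α) :=
  {p | ∃ u ∈ L, ∃ v ∈ L, ev f u * x = ev f v ∧ p = pad u v}

theorem pairLang_regular (f : α → G) (L : Language α) (hL : L.IsRegular) (D : Set G)
    (hD : D.Finite) (x : G)
    (h : ∀ u ∈ L, ∀ v ∈ L, ev f u * x = ev f v →
      ∀ t : ℕ, (ev f (u.take t))⁻¹ * ev f (v.take t) ∈ D) :
    (pairLang f L x).IsRegular := by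
  classical
  apply Language.IsRegular.of_finite_range_leftQuotient
  have hfin := hL.finite_range_leftQuotient
  let Q : (Language α × Language α) × (G × (Bool × Bool)) → Language (Option α × Option α) :=
    fun c => {r | ∃ u2 ∈ c.1.1, ∃ v2 ∈ c.1.2, ev f u2 * x = c.2.1 * ev f v2 ∧
      (c.2.2.1 = true → u2 = []) ∧ (c.2.2.2 = true → v2 = []) ∧ r = pad u2 v2}
  have hfinS : (((Set.range L.leftQuotient) ×ˢ (Set.range L.leftQuotient)) ×ˢ
      (D ×ˢ (Set.univ : Set (Bool × Bool)))).Finite :=
    (hfin.prod hfin).prod (hD.prod Set.finite_univ)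
  apply Set.Finite.subset ((hfinS.image Q).insert 0)
  rintro _ ⟨s, rfl⟩
  by_cases hne : ∃ r, r ∈ (pairLang f L x).leftQuotient s
  · right
    obtain ⟨r, u, hu, v, hv, huv, hr⟩ := hne
    set t := s.length with ht
    have hs : s = pad (u.take t) (v.take t) := by
      rw [← pad_take, ← hr, List.take_left']; rfl
    set u1 := u.take t with hu1
    set v1 := v.take t with hv1
    have htl : t = max u1.length v1.length := by
      rw [← pad_length, ← hs]
    refine ⟨((L.leftQuotient u1, L.leftQuotient v1), ((ev f u1)⁻¹ * ev f v1,
      (decide (u1.length < t), decide (v1.length < t)))), ?_, ?_⟩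
    · refine ⟨⟨⟨u1, rfl⟩, ⟨v1, rfl⟩⟩, ⟨?_, trivial⟩⟩
      exact h u hu v hv huv t
    · ext r'
      constructor
      · rintro ⟨u2, hu2, v2, hv2, he, hb1, hb2, rfl⟩
        refine ⟨u1 ++ u2, hu2, v1 ++ v2, hv2, ?_, ?_⟩
        · simp only [ev_append]
          rw [mul_assoc, he]
          simp only []
          group
        · rw [pad_append]
          · rw [← hs]
          · intro hlt; apply hb1; simpa [htl] using hlt
          · intro hlt; apply hb2; simpa [htl] using hlt
      · rintro ⟨u', hu', v', hv', he, hr'⟩
        have e1 : pad (u'.take t) (v'.take t) = s := by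
          rw [← pad_take, ← hr', List.take_left']; rfl
        have e2 : pad (u'.drop t) (v'.drop t) = r' := by
          rw [← pad_drop, ← hr', List.drop_left']; rfl
        rw [hs] at e1
        obtain ⟨e3, e4⟩ := pad_inj e1
        have e5 : u1 ++ u'.drop t = u' := by rw [← e3, List.take_append_drop]
        have e6 : v1 ++ v'.drop t = v' := by rw [← e4, List.take_append_drop]
        refine ⟨u'.drop t, ?_, v'.drop t, ?_, ?_, ?_, ?_, e2.symm⟩
        · show u1 ++ u'.drop t ∈ L
          rw [e5]; exact hu'
        · show v1 ++ v'.drop t ∈ L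
          rw [e6]; exact hv'
        · show ev f (u'.drop t) * x = (ev f u1)⁻¹ * ev f v1 * ev f (v'.drop t)
          rw [mul_assoc, ← ev_append, e6, ← he, ← e5, ev_append]
          simp [mul_assoc, e5]
        · intro hb
          have hb' : u1.length < t := by simpa using hb
          rw [← e3, List.length_take] at hb'
          exact List.drop_eq_nil_of_le (by omega)
        · intro hb
          have hb' : v1.length < t := by simpa using hb
          rw [← e4, List.length_take] at hb'
          exact List.drop_eq_nil_of_le (by omega)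
  · left
    ext r
    constructor
    · intro hr; exact absurd ⟨r, hr⟩ hne
    · intro hr; exact absurd hr (Language.notMem_zero r)

end automata

/-! ### The normal form machine -/

/-- a syllable: kind k, block i, contents a -/
structure Syl where
  k : Bool
  i : Bool
  a : ℤ × ℤ

abbrev F := Bool × Bool

def own (k : Bool) (f : F) : Bool := cond k f.2 f.1
def mkF (k o b : Bool) : F := cond k (b, o) (o, b)
def flp (k : Bool) (f : F) : F := cond k (f.1, !f.2) (!f.1, f.2)
def pick (a : ℤ × ℤ) (j : Bool) : ℤ := cond j a.2 a.1
def uv (j : Bool) (e : ℤ) : ℤ × ℤ := cond j (0, e) (e, 0)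

@[simp] theorem own_mkF (k o b : Bool) : own k (mkF k o b) = o := by cases k <;> rfl
@[simp] theorem own_mkF' (k o b : Bool) : own (!k) (mkF k o b) = b := by cases k <;> rfl
theorem mkF_own (k : Bool) (f : F) : mkF k (own k f) (own (!k) f) = f := by cases k <;> rfl
@[simp] theorem own_flp (k : Bool) (f : F) : own k (flp k f) = !(own k f) := by cases k <;> rfl
@[simp] theorem own_flp' (k : Bool) (f : F) : own (!k) (flp k f) = own (!k) f := by cases k <;> rfl
@[simp] theorem flp_flp (k : Bool) (f : F) : flp k (flp k f) = f := by
  cases k <;> simp [flp]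
theorem flp_comm (k k' : Bool) (f : F) : flp k (flp k' f) = flp k' (flp k f) := by
  cases k <;> cases k' <;> simp [flp]
@[simp] theorem uv_zero (j : Bool) : uv j 0 = 0 := by cases j <;> rfl
theorem uv_add (j : Bool) (e e' : ℤ) : uv j e + uv j e' = uv j (e + e') := by
  cases j <;> simp [uv]
@[simp] theorem pick_uv (j : Bool) (e : ℤ) : pick (uv j e) j = e := by cases j <;> rfl
@[simp] theorem pick_uv' (j : Bool) (e : ℤ) : pick (uv j e) (!j) = 0 := by cases j <;> rfl
@[simp] theorem pick_add (a b : ℤ × ℤ) (j : Bool) : pick (a + b) j = pick a j + pick b j := by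
  cases j <;> rfl
@[simp] theorem pick_zero (j : Bool) : pick 0 j = 0 := by cases j <;> rfl
theorem eq_zero_iff (a : ℤ × ℤ) (j : Bool) : a = 0 ↔ pick a j = 0 ∧ pick a (!j) = 0 := by
  cases j <;> simp [pick, Prod.ext_iff, and_comm]
theorem pick_ext {a b : ℤ × ℤ} (j : Bool) (h1 : pick a j = pick b j) (h2 : pick a (!j) = pick b (!j)) :
    a = b := by
  cases j <;> simp [pick] at h1 h2 <;> exact Prod.ext (by assumption) (by assumption)

/-- letters: `X k e` is the e-th power (e = true for +1) of the k-th infinite generator,
`T k` the k-th involution -/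
inductive Letter
  | X (k : Bool) (e : Bool)
  | T (k : Bool)
deriving DecidableEq, Fintype

open Letter

def sg (e : Bool) : ℤ := cond e 1 (-1)

def Letter.inv : Letter → Letter
  | X k e => X k (!e)
  | T k => T k

/-- add c to the content of factor (k,i) at the end of the stack (head = last syllable) -/
def upd (k i : Bool) (c : ℤ × ℤ) : List Syl → List Syl
  | [] => if c = 0 then [] else [⟨k, i, c⟩]
  | s :: st => if s.k = k ∧ s.i = i then (if s.a + c = 0 then st else ⟨k, i, s.a + c⟩ :: st)
      else (if c = 0 then s :: st else ⟨k, i, c⟩ :: s :: st)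

def Fresh (k i : Bool) (st : List Syl) : Prop := ∀ s ∈ st.head?, ¬ (s.k = k ∧ s.i = i)

def Valid : List Syl → Prop
  | [] => True
  | s :: st => s.a ≠ 0 ∧ Fresh s.k s.i st ∧ Valid st

def push (k i : Bool) (a : ℤ × ℤ) (st : List Syl) : List Syl :=
  if a = 0 then st else ⟨k, i, a⟩ :: st

theorem valid_push {k i : Bool} {a : ℤ × ℤ} {st : List Syl} (h : Valid st) (hf : Fresh k i st) :
    Valid (push k i a st) := by
  unfold push
  split_ifs with ha
  · exact h
  · exact ⟨ha, hf, h⟩

theorem exists_push (k i : Bool) {st : List Syl} (h : Valid st) :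
    ∃ a st', Valid st' ∧ Fresh k i st' ∧ st = push k i a st' := by
  cases st with
  | nil => exact ⟨0, [], trivial, by simp [Fresh], by simp [push]⟩
  | cons s st =>
    by_cases hs : s.k = k ∧ s.i = i
    · obtain ⟨rfl, rfl⟩ := hs
      exact ⟨s.a, st, h.2.2, h.2.1, by simp [push, h.1]⟩
    · exact ⟨0, s :: st, h, by simpa [Fresh] using hs, by simp [push]⟩

theorem upd_fresh {k i : Bool} {c : ℤ × ℤ} {st : List Syl} (hf : Fresh k i st) :
    upd k i c st = push k i c st := by
  cases st with
  | nil => simp [upd, push]
  | cons s st =>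
    have : ¬ (s.k = k ∧ s.i = i) := by simpa [Fresh] using hf
    simp [upd, push, this]

theorem upd_push {k i : Bool} {a c : ℤ × ℤ} {st : List Syl} (hf : Fresh k i st) :
    upd k i c (push k i a st) = push k i (a + c) st := by
  by_cases ha : a = 0
  · subst ha; simp only [push, if_true, zero_add]; rw [upd_fresh hf]; rfl
  · rw [push, if_neg ha]
    simp [upd, push]

theorem upd_zero {k i : Bool} {st : List Syl} (h : Valid st) : upd k i 0 st = st := by
  obtain ⟨a, st', h1, h2, rfl⟩ := exists_push k i h
  rw [upd_push h2, add_zero]

theorem upd_upd {k i : Bool} {c c' : ℤ × ℤ} {st : List Syl} (h : Valid st) :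
    upd k i c (upd k i c' st) = upd k i (c' + c) st := by
  obtain ⟨a, st', h1, h2, rfl⟩ := exists_push k i h
  rw [upd_push h2, upd_push h2, upd_push h2, add_assoc]

theorem valid_upd {k i : Bool} {c : ℤ × ℤ} {st : List Syl} (h : Valid st) :
    Valid (upd k i c st) := by
  obtain ⟨a, st', h1, h2, rfl⟩ := exists_push k i h
  rw [upd_push h2]; exact valid_push h1 h2

abbrev St := List Syl × F

/-- right multiplication by a letter -/
def stp (s : St) : Letter → St
  | X k e => (upd k (own (!k) s.2) (uv (own k s.2) (sg e)) s.1, s.2)
  | T k => (s.1, flp k s.2)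

theorem valid_stp {s : St} (h : Valid s.1) (c : Letter) : Valid (stp s c).1 := by
  cases c with
  | X k e => exact valid_upd h
  | T k => exact h

def run (s : St) (w : List Letter) : St := w.foldl stp s

@[simp] theorem run_nil (s : St) : run s [] = s := rfl
@[simp] theorem run_cons (s : St) (c : Letter) (w : List Letter) :
    run s (c :: w) = run (stp s c) w := rfl
@[simp] theorem run_append (s : St) (u w : List Letter) : run s (u ++ w) = run (run s u) w := by
  simp [run, List.foldl_append]

theorem valid_run {s : St} (h : Valid s.1) (w : List Letter) : Valid (run s w).1 := by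
  induction w generalizing s with
  | nil => exact h
  | cons c w ih => exact ih (valid_stp h c)

def start : St := ([], (false, false))

theorem valid_start : Valid start.1 := trivial

theorem stp_inv {s : St} (h : Valid s.1) (c : Letter) : stp (stp s c) c.inv = s := by
  cases c with
  | X k e =>
    simp only [stp, Letter.inv]
    rw [upd_upd h, uv_add]
    have : sg e + sg (!e) = 0 := by cases e <;> simp [sg]
    rw [this, uv_zero, upd_zero h]
  | T k => simp [stp, Letter.inv]

@[simp] theorem inv_inv (c : Letter) : c.inv.inv = c := by cases c <;> simp [Letter.inv]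

theorem stp_inv' {s : St} (h : Valid s.1) (c : Letter) : stp (stp s c.inv) c = s := by
  have := stp_inv h c.inv
  rwa [inv_inv] at this

/-- words -/
def rp (k : Bool) (m : ℤ) : List Letter := List.replicate m.natAbs (X k (decide (0 < m)))

/-- own coordinate differs: d; block coordinate differs: e -/
def mvk (k d e : Bool) : List Letter :=
  cond k (cond d [T true] [] ++ cond e [T false] []) (cond e [T true] [] ++ cond d [T false] [])

def mv (g f : F) : List Letter :=
  cond (xor g.2 f.2) [T true] [] ++ cond (xor g.1 f.1) [T false] []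

theorem mv_mkF (g : F) (k j i : Bool) :
    mv g (mkF k j i) = mvk k (xor (own k g) j) (xor (own (!k) g) i) := by
  cases k <;> rfl

@[simp] theorem mv_self (g : F) : mv g g = [] := by simp [mv]

def ent (o : Bool) (a : ℤ × ℤ) : Bool := if pick a o = 0 then !o else o
def outb (o : Bool) (a : ℤ × ℤ) : Bool := if pick a (!o) = 0 then o else !o

def body (k o : Bool) (a : ℤ × ℤ) : List Letter :=
  rp k (pick a o) ++ (if pick a (!o) = 0 then [] else T k :: rp k (pick a (!o)))

def gate : List Syl → F
  | [] => (false, false)
  | s :: st => mkF s.k (outb (ent (own s.k (gate st)) s.a) s.a) s.i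

def wordS : List Syl → List Letter
  | [] => []
  | s :: st => wordS st ++ mv (gate st) (mkF s.k (ent (own s.k (gate st)) s.a) s.i) ++
      body s.k (ent (own s.k (gate st)) s.a) s.a

def word (s : St) : List Letter := wordS s.1 ++ mv (gate s.1) s.2

/-- the word of one block: `same`: own coordinate of the gate equals the final one; `e`: block
letter needed; `m`: content at the final own coordinate, `n`: content at the other -/
def blockWord (k same e : Bool) (m n : ℤ) : List Letter :=
  if same then
    (if n = 0 then mvk k false e ++ rp k m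
     else if m = 0 then mvk k true e ++ rp k n ++ [T k]
     else mvk k false e ++ rp k m ++ [T k] ++ rp k n ++ [T k])
  else
    (if n = 0 then mvk k true e ++ rp k m
     else mvk k false e ++ rp k n ++ [T k] ++ rp k m)

@[simp] theorem rp_zero (k : Bool) : rp k 0 = [] := by simp [rp]

theorem word_push (k i j : Bool) (a : ℤ × ℤ) (st : List Syl) :
    word (push k i a st, mkF k j i) =
      wordS st ++ blockWord k (own k (gate st) == j) (xor (own (!k) (gate st)) i)
        (pick a j) (pick a (!j)) := by
  by_cases ha : a = 0
  · subst ha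
    simp only [push, if_true, word, mv_mkF, pick_zero, blockWord, rp_zero]
    cases h : own k (gate st) <;> cases j <;> simp
  · rw [push, if_neg ha]
    simp only [word, wordS, gate, body]
    rw [mv_mkF, mv_mkF]
    have ha' := ha
    rw [eq_zero_iff a j] at ha
    generalize own k (gate st) = o
    generalize own (!k) (gate st) = b
    simp only [own_mkF, own_mkF', Bool.xor_self, List.append_assoc]
    congr 1
    by_cases h1 : pick a j = 0 <;> by_cases h2 : pick a (!j) = 0
    · exact absurd ⟨h1, h2⟩ ha
    all_goals
      cases o <;> cases j <;> simp at h1 h2 <;>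
        simp [ent, outb, blockWord, h1, h2, mvk] <;> cases k <;> simp

/-! ### running words -/

theorem run_rp {k : Bool} (st : List Syl) (f : F) (h : Valid st) (m : ℤ) :
    run (st, f) (rp k m) = (upd k (own (!k) f) (uv (own k f) m) st, f) := by
  have key : ∀ (n : ℕ) (e : Bool) (st : List Syl), Valid st →
      run (st, f) (List.replicate n (X k e)) =
        (upd k (own (!k) f) (uv (own k f) (n * sg e)) st, f) := by
    intro n e
    induction n with
    | zero => intro st h; simp [upd_zero h]
    | succ n ih =>
      intro st h
      rw [List.replicate_succ, run_cons]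
      simp only [stp]
      rw [ih _ (valid_upd h), upd_upd h, uv_add]
      congr 3
      push_cast; ring_nf
  unfold rp
  rw [key _ _ _ h]
  congr 3
  rcases lt_trichotomy m 0 with hm | hm | hm
  · have : ¬ (0 < m) := by omega
    simp [this, sg, abs_of_neg hm]
  · subst hm; simp
  · simp [hm, sg, abs_of_pos hm]

theorem run_mv (st : List Syl) (g f : F) : run (st, g) (mv g f) = (st, f) := by
  obtain ⟨g1, g2⟩ := g
  obtain ⟨f1, f2⟩ := f
  cases g1 <;> cases g2 <;> cases f1 <;> cases f2 <;> simp [mv, stp, flp]

theorem run_body {k i o : Bool} {a : ℤ × ℤ} {st : List Syl} (h : Valid st) (hf : Fresh k i st) :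
    run (st, mkF k o i) (body k o a) = (push k i a st, mkF k (outb o a) i) := by
  unfold body outb
  rw [run_append, run_rp _ _ h]
  simp only [own_mkF, own_mkF']
  rw [upd_fresh hf]
  split_ifs with h2
  · simp only [run_nil]
    congr 2
    apply pick_ext o <;> simp [h2]
  · have hv := valid_push (a := uv o (pick a o)) h hf
    simp only [run_cons, stp]
    rw [run_rp _ _ hv]
    have e1 : flp k (mkF k o i) = mkF k (!o) i := by cases k <;> rfl
    rw [e1]
    simp only [own_mkF, own_mkF']
    rw [upd_push hf]
    congr 2
    apply pick_ext o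
    · simp
      have := pick_uv' (!o) (pick a (!o))
      simp at this
      rw [this]
    · simp

theorem run_wordS {st : List Syl} (h : Valid st) : run start (wordS st) = (st, gate st) := by
  induction st with
  | nil => rfl
  | cons s st ih =>
    obtain ⟨h1, h2, h3⟩ := h
    simp only [wordS, run_append, ih h3, gate]
    rw [run_mv, run_body h3 h2]
    simp [push, h1]

theorem run_word {s : St} (h : Valid s.1) : run start (word s) = s := by
  obtain ⟨st, f⟩ := s
  simp only [word, run_append, run_wordS h, run_mv]

theorem rp_add {k : Bool} {m : ℤ} {e : Bool} (h : 0 ≤ m * sg e) :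
    rp k (m + sg e) = rp k m ++ [X k e] := by
  unfold rp
  rcases lt_trichotomy m 0 with hm | hm | hm
  · cases e
    · simp only [sg, cond_false] at *
      have h1 : ¬ (0 < m) := by omega
      have h2 : ¬ (0 < m + -1) := by omega
      have h3 : (m + -1).natAbs = m.natAbs + 1 := by omega
      rw [h3, List.replicate_succ']
      simp [h1, h2]
    · simp [sg] at h; omega
  · subst hm
    cases e <;> simp [sg]
  · cases e
    · simp [sg] at h; omega
    · simp only [sg, cond_true] at *
      have h2 : (0 < m + 1) := by omega
      have h3 : (m + 1).natAbs = m.natAbs + 1 := by omega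
      rw [h3, List.replicate_succ']
      simp [hm, h2]

theorem sg_ne (e : Bool) : sg e ≠ 0 := by cases e <;> simp [sg]
theorem sg_not (e : Bool) : sg (!e) = - sg e := by cases e <;> simp [sg]

theorem add_sg_ne {m : ℤ} {e : Bool} (h : 0 ≤ m * sg e) : m + sg e ≠ 0 := by
  cases e <;> simp [sg] at * <;> omega

/-- letter appended at the end of the block word -/
theorem blockWord_ext {k same b e : Bool} {m n : ℤ} (h : 0 ≤ m * sg e)
    (h2 : same = true → n = 0) :
    blockWord k same b (m + sg e) n = blockWord k same b m n ++ [X k e] := by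
  unfold blockWord
  have h3 := rp_add (k := k) h
  cases same
  · by_cases hn : n = 0 <;> simp [hn, h3]
  · have hn := h2 rfl
    simp [hn, h3]

theorem blockWord_len {k same b e : Bool} {m n : ℤ} (h : 0 ≤ m * sg e) :
    (blockWord k same b (m + sg e) n).length = (blockWord k same b m n).length + 1 := by
  by_cases h2 : same = true → n = 0
  · rw [blockWord_ext h h2]; simp
  · push Not at h2
    obtain ⟨rfl, hn⟩ := h2
    have h3 := rp_add (k := k) h
    have h4 := add_sg_ne h
    by_cases hm : m = 0
    · subst hm
      simp only [zero_add] at h3 h4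
      cases k <;> cases b <;> simp [blockWord, hn, h4, h3, mvk]
    · simp [blockWord, hn, hm, h3, h4]; omega

/-- content of factor (k,i) at the end of the stack -/
def cont (k i : Bool) : List Syl → ℤ × ℤ
  | [] => 0
  | s :: _ => if s.k = k ∧ s.i = i then s.a else 0

/-- the stack below the factor (k,i) -/
def base (k i : Bool) : List Syl → List Syl
  | [] => []
  | s :: st => if s.k = k ∧ s.i = i then st else s :: st

theorem fresh_base {k i : Bool} {st : List Syl} (h : Valid st) : Fresh k i (base k i st) := by
  cases st with
  | nil => simp [base, Fresh]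
  | cons s st =>
    by_cases hs : s.k = k ∧ s.i = i
    · obtain ⟨rfl, rfl⟩ := hs
      simpa [base] using h.2.1
    · have h1 : base k i (s :: st) = s :: st := by simp [base, hs]
      rw [h1]
      simpa [Fresh] using hs

theorem valid_base {k i : Bool} {st : List Syl} (h : Valid st) : Valid (base k i st) := by
  cases st with
  | nil => exact h
  | cons s st =>
    by_cases hs : s.k = k ∧ s.i = i
    · simpa [base, hs] using h.2.2
    · simpa [base, hs] using h

theorem push_base {k i : Bool} {st : List Syl} (h : Valid st) :
    push k i (cont k i st) (base k i st) = st := by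
  cases st with
  | nil => simp [base, cont, push]
  | cons s st =>
    by_cases hs : s.k = k ∧ s.i = i
    · obtain ⟨rfl, rfl⟩ := hs
      simp [base, cont, push, h.1]
    · simp [base, cont, hs, push]

theorem cont_push {k i : Bool} {a : ℤ × ℤ} {st : List Syl} (hf : Fresh k i st) :
    cont k i (push k i a st) = a := by
  by_cases ha : a = 0
  · subst ha
    cases st with
    | nil => simp [push, cont]
    | cons s st =>
      have : ¬ (s.k = k ∧ s.i = i) := by simpa [Fresh] using hf
      simp [push, cont, this]
  · simp [push, ha, cont]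

theorem base_push {k i : Bool} {a : ℤ × ℤ} {st : List Syl} (hf : Fresh k i st) :
    base k i (push k i a st) = st := by
  by_cases ha : a = 0
  · subst ha
    cases st with
    | nil => simp [push, base]
    | cons s st =>
      have : ¬ (s.k = k ∧ s.i = i) := by simpa [Fresh] using hf
      simp [push, base, this]
  · simp [push, ha, base]

theorem upd_eq {k i : Bool} {c : ℤ × ℤ} {st : List Syl} (h : Valid st) :
    upd k i c st = push k i (cont k i st + c) (base k i st) := by
  conv_lhs => rw [← push_base (k := k) (i := i) h]
  rw [upd_push (fresh_base h)]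

/-- current content at a state for kind k -/
def cc (k : Bool) (s : St) : ℤ × ℤ := cont k (own (!k) s.2) s.1
def cb (k : Bool) (s : St) : List Syl := base k (own (!k) s.2) s.1

theorem word_eq (k : Bool) {s : St} (h : Valid s.1) :
    word s = wordS (cb k s) ++ blockWord k (own k (gate (cb k s)) == own k s.2)
      (xor (own (!k) (gate (cb k s))) (own (!k) s.2)) (pick (cc k s) (own k s.2))
      (pick (cc k s) (!(own k s.2))) := by
  have h1 := word_push k (own (!k) s.2) (own k s.2) (cc k s) (cb k s)
  rw [mkF_own] at h1
  rw [← h1]
  unfold cc cb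
  rw [push_base h]

theorem word_stpX (k e : Bool) {s : St} (h : Valid s.1) :
    word (stp s (X k e)) = wordS (cb k s) ++ blockWord k (own k (gate (cb k s)) == own k s.2)
      (xor (own (!k) (gate (cb k s))) (own (!k) s.2)) (pick (cc k s) (own k s.2) + sg e)
      (pick (cc k s) (!(own k s.2))) := by
  have h1 := word_push k (own (!k) s.2) (own k s.2) (cc k s + uv (own k s.2) (sg e)) (cb k s)
  rw [mkF_own] at h1
  simp only [stp]
  rw [upd_eq h]
  simp only [pick_add, pick_uv, pick_uv', add_zero] at h1
  exact h1

theorem len_stpX {k e : Bool} {s : St} (h : Valid s.1)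
    (h1 : 0 ≤ pick (cc k s) (own k s.2) * sg e) :
    (word (stp s (X k e))).length = (word s).length + 1 := by
  rw [word_stpX k e h, word_eq k h, List.length_append, List.length_append, blockWord_len h1]
  omega

theorem cc_stpX {k e : Bool} {s : St} (h : Valid s.1) :
    cc k (stp s (X k e)) = cc k s + uv (own k s.2) (sg e) := by
  unfold cc
  simp only [stp]
  rw [upd_eq h, cont_push (fresh_base h)]

theorem cb_stpX {k e : Bool} {s : St} (h : Valid s.1) :
    cb k (stp s (X k e)) = cb k s := by
  unfold cb
  simp only [stp]
  rw [upd_eq h, base_push (fresh_base h)]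

theorem len_stpX' {k e : Bool} {s : St} (h : Valid s.1)
    (h1 : pick (cc k s) (own k s.2) * sg e < 0) :
    (word (stp s (X k e))).length + 1 = (word s).length := by
  have h2 := len_stpX (k := k) (e := !e) (s := stp s (X k e)) (valid_stp h _) (by
    rw [cc_stpX h]
    have : (stp s (X k e)).2 = s.2 := rfl
    rw [this, pick_add, pick_uv, sg_not]
    generalize pick (cc k s) (own k s.2) = m at *
    cases e <;> simp [sg] at * <;> omega)
  have h3 := stp_inv h (X k e)
  simp only [Letter.inv] at h3
  rw [h3] at h2
  omega

theorem len_stpT {k : Bool} {s : St} (h1 : own k (gate s.1) = own k s.2) :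
    (word (stp s (T k))).length = (word s).length + 1 := by
  obtain ⟨st, f⟩ := s
  simp only [word, stp] at *
  generalize gate st = g at *
  obtain ⟨g1, g2⟩ := g
  obtain ⟨f1, f2⟩ := f
  cases k <;> simp [own] at h1 <;> subst h1 <;> simp [mv, flp] <;> omega

theorem len_stpT' {k : Bool} {s : St} (h1 : own k (gate s.1) ≠ own k s.2) :
    (word (stp s (T k))).length + 1 = (word s).length := by
  obtain ⟨st, f⟩ := s
  simp only at h1
  have h2 := len_stpT (k := k) (s := stp (st, f) (T k)) (by
    simp only [stp, own_flp]
    generalize own k (gate st) = a at *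
    generalize own k f = b at *
    cases a <;> cases b <;> simp at *)
  simp only [stp, flp_flp] at h2 ⊢
  omega

/-- the length changes by at most one -/
theorem len_stp_le {s : St} (h : Valid s.1) (c : Letter) :
    (word (stp s c)).length ≤ (word s).length + 1 := by
  cases c with
  | X k e =>
    by_cases h1 : 0 ≤ pick (cc k s) (own k s.2) * sg e
    · rw [len_stpX h h1]
    · have := len_stpX' h (by omega : pick (cc k s) (own k s.2) * sg e < 0); omega
  | T k =>
    by_cases h1 : own k (gate s.1) = own k s.2
    · rw [len_stpT h1]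
    · have := len_stpT' h1; omega

theorem len_run_le (w : List Letter) : (word (run start w)).length ≤ w.length := by
  induction w using List.reverseRecOn with
  | nil => simp [word, wordS, start, gate, mv]
  | append_singleton w c ih =>
    rw [run_append, run_cons, run_nil]
    have := len_stp_le (valid_run valid_start w) c
    simp; omega

/-! ### the finite state information -/

abbrev Info := F × F × Option (Bool × Bool × F × SignType × SignType)

noncomputable def topInfo : List Syl → Option (Bool × Bool × F × SignType × SignType)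
  | [] => none
  | s :: st => some (s.k, s.i, gate st, SignType.sign s.a.1, SignType.sign s.a.2)

noncomputable def info (s : St) : Info := (gate s.1, s.2, topInfo s.1)

def sgs (e : Bool) : SignType := cond e 1 (-1)

def extB (q : Info) : Letter → Bool
  | T k => cond k (q.1 == q.2.1) (q.1.1 == q.2.1.1)
  | X k e =>
    match q.2.2 with
    | none => true
    | some (k', i', g', s1, s2) =>
      if k' = k ∧ i' = own (!k) q.2.1 then
        (let j := own k q.2.1
         (cond j s2 s1 == 0 || cond j s2 s1 == sgs e) && (own k g' != j || cond j s1 s2 == 0))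
      else true

def updI (q : Info) : Letter → Info
  | T k => (q.1, flp k q.2.1, q.2.2)
  | X k e =>
    (q.2.1, q.2.1,
      let j := own k q.2.1
      match q.2.2 with
      | none => some (k, own (!k) q.2.1, q.1, cond j 0 (sgs e), cond j (sgs e) 0)
      | some (k', i', g', s1, s2) =>
        if k' = k ∧ i' = own (!k) q.2.1 then
          some (k, i', g', cond j s1 (sgs e), cond j (sgs e) s2)
        else some (k, own (!k) q.2.1, q.1, cond j 0 (sgs e), cond j (sgs e) 0))

theorem sign_sg (e : Bool) : SignType.sign (sg e) = sgs e := by cases e <;> rfl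

theorem sign_add_sg {m : ℤ} {e : Bool} (h : 0 ≤ m * sg e) :
    SignType.sign (m + sg e) = sgs e := by
  cases e
  · simp only [sg, cond_false, sgs] at *
    exact sign_neg (by omega)
  · simp only [sg, cond_true, sgs] at *
    exact sign_pos (by omega)

theorem sign_cond {m : ℤ} {e : Bool} :
    (SignType.sign m == 0 || SignType.sign m == sgs e) = true ↔ 0 ≤ m * sg e := by
  rcases lt_trichotomy m 0 with hm | hm | hm
  · rw [sign_neg hm]; cases e <;> simp [sgs, sg] <;> omega
  · subst hm; simp
  · rw [sign_pos hm]; cases e <;> simp [sgs, sg] <;> omega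

/-- gate after appending a letter `X` -/
theorem gate_push {k i j : Bool} {a : ℤ × ℤ} {st : List Syl}
    (ha : pick a j ≠ 0) (h : own k (gate st) = j → pick a (!j) = 0) :
    gate (push k i a st) = mkF k j i := by
  have h0 : a ≠ 0 := by rw [Ne, eq_zero_iff a j]; tauto
  simp only [push, h0, if_false, gate]
  congr 1
  generalize own k (gate st) = o at *
  unfold ent outb
  cases o <;> cases j <;> by_cases h2 : pick a false = 0 <;> by_cases h3 : pick a true = 0 <;>
    simp_all

theorem topInfo_push {k i : Bool} {a : ℤ × ℤ} {st : List Syl} (ha : a ≠ 0) :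
    topInfo (push k i a st) = some (k, i, gate st, SignType.sign a.1, SignType.sign a.2) := by
  simp [push, ha, topInfo]

/-- one extension step, generic form -/
theorem ext_X {k e : Bool} {s : St} (h : Valid s.1)
    (h1 : 0 ≤ pick (cc k s) (own k s.2) * sg e)
    (h2 : own k (gate (cb k s)) = own k s.2 → pick (cc k s) (!(own k s.2)) = 0) :
    word (stp s (X k e)) = word s ++ [X k e] ∧
    info (stp s (X k e)) = (s.2, s.2, some (k, own (!k) s.2, gate (cb k s),
      cond (own k s.2) (SignType.sign (cc k s).1) (sgs e),
      cond (own k s.2) (sgs e) (SignType.sign (cc k s).2))) := by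
  constructor
  · rw [word_stpX k e h, word_eq k h, blockWord_ext h1, List.append_assoc]
    intro h3
    exact h2 (by simpa using h3)
  · have hne : pick (cc k s + uv (own k s.2) (sg e)) (own k s.2) ≠ 0 := by
      rw [pick_add, pick_uv]; exact add_sg_ne h1
    have hne' : cc k s + uv (own k s.2) (sg e) ≠ 0 := by
      rw [Ne, eq_zero_iff _ (own k s.2)]; tauto
    unfold info
    simp only [stp]
    rw [upd_eq h]
    change (gate (push k (own (!k) s.2) (cc k s + uv (own k s.2) (sg e)) (cb k s)), s.2,
      topInfo (push k (own (!k) s.2) (cc k s + uv (own k s.2) (sg e)) (cb k s))) = _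
    rw [topInfo_push hne', gate_push hne, mkF_own]
    · have h3 := sign_add_sg h1
      have e1 : SignType.sign (cc k s + uv (own k s.2) (sg e)).1 =
          cond (own k s.2) (SignType.sign (cc k s).1) (sgs e) := by
        cases hj : own k s.2
        · rw [hj] at h3; simpa [uv, pick] using h3
        · simp [uv]
      have e2 : SignType.sign (cc k s + uv (own k s.2) (sg e)).2 =
          cond (own k s.2) (sgs e) (SignType.sign (cc k s).2) := by
        cases hj : own k s.2
        · simp [uv]
        · rw [hj] at h3; simpa [uv, pick] using h3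
      rw [e1, e2]
    · intro h4
      rw [pick_add, pick_uv', add_zero]
      exact h2 h4

theorem ext_T {k : Bool} {s : St} (h1 : cond k (gate s.1 == s.2) ((gate s.1).1 == s.2.1) = true) :
    word (stp s (T k)) = word s ++ [T k] := by
  obtain ⟨st, f⟩ := s
  simp only [word, stp] at *
  generalize gate st = g at *
  obtain ⟨g1, g2⟩ := g
  obtain ⟨f1, f2⟩ := f
  cases k
  · simp at h1; subst h1; simp [mv, flp]
  · simp at h1; obtain ⟨rfl, rfl⟩ := h1; simp [mv, flp]

theorem ext_ok {s : St} (h : Valid s.1) (c : Letter) (hc : extB (info s) c = true) :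
    word (stp s c) = word s ++ [c] ∧ info (stp s c) = updI (info s) c := by
  cases c with
  | T k =>
    refine ⟨ext_T ?_, rfl⟩
    exact hc
  | X k e =>
    obtain ⟨st, f⟩ := s
    cases st with
    | nil =>
      have hcc : cc k (([] : List Syl), f) = 0 := rfl
      obtain ⟨h1, h2⟩ := ext_X (k := k) (e := e) (s := ([], f)) trivial (by simp [hcc])
        (by simp [hcc])
      refine ⟨h1, ?_⟩
      rw [h2]
      simp only [updI, info, topInfo, hcc]
      simp only [cb, base]
      cases own k f <;> simp
    | cons s0 st0 =>
      by_cases hm : s0.k = k ∧ s0.i = own (!k) f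
      · have hcc : cc k (s0 :: st0, f) = s0.a := by simp [cc, cont, hm]
        have hcb : cb k (s0 :: st0, f) = st0 := by simp [cb, base, hm]
        simp only [extB, info, topInfo, hm, and_self, if_true] at hc
        rw [Bool.and_eq_true] at hc
        obtain ⟨hc1, hc2⟩ := hc
        have e1 : cond (own k f) (SignType.sign s0.a.2) (SignType.sign s0.a.1) =
            SignType.sign (pick s0.a (own k f)) := by cases own k f <;> rfl
        have e2 : cond (own k f) (SignType.sign s0.a.1) (SignType.sign s0.a.2) =
            SignType.sign (pick s0.a (!(own k f))) := by cases own k f <;> rfl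
        rw [e1, sign_cond] at hc1
        rw [e2] at hc2
        obtain ⟨h1, h2⟩ := ext_X (k := k) (e := e) (s := (s0 :: st0, f)) h
          (by simpa [hcc] using hc1)
          (by
            intro h3
            rw [hcc]
            rw [hcb] at h3
            simp only at h3
            simp only [h3, bne_self_eq_false, Bool.false_or] at hc2
            simpa using hc2)
        refine ⟨h1, ?_⟩
        rw [h2]
        simp only [updI, info, topInfo, hcc, hcb, hm, and_self, if_true]
      · have hcc : cc k (s0 :: st0, f) = 0 := by simp [cc, cont, hm]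
        have hcb : cb k (s0 :: st0, f) = s0 :: st0 := by simp [cb, base, hm]
        obtain ⟨h1, h2⟩ := ext_X (k := k) (e := e) (s := (s0 :: st0, f)) h (by simp [hcc])
          (by simp [hcc])
        refine ⟨h1, ?_⟩
        rw [h2]
        simp only [updI, info, topInfo, hcc, hcb, hm, if_false]
        cases own k f <;> simp

theorem outb_ent_ne {o : Bool} {a : ℤ × ℤ} (ha : a ≠ 0) : pick a (outb (ent o a) a) ≠ 0 := by
  rw [Ne, eq_zero_iff a false] at ha
  unfold outb ent
  cases o <;> by_cases h2 : pick a false = 0 <;> by_cases h3 : pick a true = 0 <;> simp_all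

theorem outb_ent_same {o : Bool} {a : ℤ × ℤ} (ha : a ≠ 0) :
    o = outb (ent o a) a → pick a (!(outb (ent o a) a)) = 0 := by
  rw [Ne, eq_zero_iff a false] at ha
  unfold outb ent
  cases o <;> by_cases h2 : pick a false = 0 <;> by_cases h3 : pick a true = 0 <;> simp_all

/-- every nontrivial state has a parent -/
theorem parent {s : St} (h : Valid s.1) (hs : s ≠ start) :
    ∃ s' : St, ∃ c : Letter, Valid s'.1 ∧ stp s' c = s ∧ extB (info s') c = true := by
  obtain ⟨st, f⟩ := s
  by_cases h1 : (gate st).1 = f.1
  · by_cases h2 : (gate st).2 = f.2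
    · -- content letter last
      have hgf : gate st = f := Prod.ext h1 h2
      cases st with
      | nil => exact absurd (by rw [← hgf]; rfl) hs
      | cons s0 st0 =>
        obtain ⟨ha, hf, hv⟩ := h
        obtain ⟨k, i, a⟩ := s0
        simp only at ha hf
        simp only [gate] at hgf
        set o := own k (gate st0) with ho
        set j := outb (ent o a) a with hj
        have hblk : own (!k) f = i := by rw [← hgf]; simp
        have hown : own k f = j := by rw [← hgf]; simp
        have haj : pick a j ≠ 0 := outb_ent_ne ha
        have hsame : o = j → pick a (!j) = 0 := outb_ent_same ha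
        -- the sign
        obtain ⟨e, he⟩ : ∃ e : Bool, 0 < pick a j * sg e := by
          rcases lt_or_gt_of_ne haj with h3 | h3
          · exact ⟨false, by simp [sg]; omega⟩
          · exact ⟨true, by simpa [sg] using h3⟩
        refine ⟨stp (⟨k, i, a⟩ :: st0, f) (X k (!e)), X k e,
          valid_stp (s := (⟨k, i, a⟩ :: st0, f)) ⟨ha, hf, hv⟩ _, ?_, ?_⟩
        · have := stp_inv' (s := ((⟨k, i, a⟩ :: st0 : List Syl), f)) ⟨ha, hf, hv⟩ (X k e)
          simpa [Letter.inv] using this
        · have e1 : stp ((⟨k, i, a⟩ :: st0 : List Syl), f) (X k (!e)) =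
              (push k i (a + uv j (sg (!e))) st0, f) := by
            simp only [stp, hblk, hown]
            have : (⟨k, i, a⟩ :: st0 : List Syl) = push k i a st0 := by simp [push, ha]
            rw [this, upd_push hf]
          rw [e1]
          by_cases h0 : a + uv j (sg (!e)) = 0
          · rw [push, if_pos h0]
            cases st0 with
            | nil => rfl
            | cons s1 st1 =>
              have hfr : ¬ (s1.k = k ∧ s1.i = own (!k) f) := by
                rw [hblk]; simpa [Fresh] using hf
              simp only [extB, info, topInfo, hfr, if_false]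
          · simp only [extB, info]
            rw [topInfo_push h0]
            simp only [hblk, and_self, if_true, hown]
            rw [Bool.and_eq_true]
            have e3 : cond j (SignType.sign (a + uv j (sg !e)).2)
                (SignType.sign (a + uv j (sg !e)).1) =
                SignType.sign (pick (a + uv j (sg !e)) j) := by cases j <;> rfl
            have e4 : cond j (SignType.sign (a + uv j (sg !e)).1)
                (SignType.sign (a + uv j (sg !e)).2) =
                SignType.sign (pick (a + uv j (sg !e)) (!j)) := by cases j <;> rfl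
            rw [e3, e4, sign_cond, pick_add, pick_add, pick_uv, pick_uv', sg_not, add_zero]
            constructor
            · generalize pick a j = m at *
              cases e <;> simp [sg] at * <;> omega
            · rw [← ho]
              by_cases h5 : o = j
              · simp [hsame h5]
              · simp [h5]
    · refine ⟨(st, flp true f), T true, h, by simp [stp], ?_⟩
      simp only [extB, info, cond_true, beq_iff_eq]
      apply Prod.ext
      · simpa [flp] using h1
      · simp only [flp, cond_true]
        generalize (gate st).2 = a at *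
        generalize f.2 = b at *
        cases a <;> cases b <;> simp at *
  · refine ⟨(st, flp false f), T false, h, by simp [stp], ?_⟩
    simp only [extB, info, cond_false, beq_iff_eq, flp]
    generalize (gate st).1 = a at *
    generalize f.1 = b at *
    cases a <;> cases b <;> simp at *

/-- the automaton of normal form words -/
noncomputable def M : DFA Letter (Option Info) where
  step q c := q.bind fun q => if extB q c then some (updI q c) else none
  start := some (info start)
  accept := {q | q.isSome = true}

/-- the language of normal form words -/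
def NL : Language Letter := {w | ∃ s : St, Valid s.1 ∧ word s = w}

theorem M_eval (w : List Letter) (q : Info) (h : M.eval w = some q) :
    q = info (run start w) ∧ word (run start w) = w := by
  induction w using List.reverseRecOn generalizing q with
  | nil =>
    simp only [DFA.eval_nil, M] at h
    simp only [run_nil]
    refine ⟨(Option.some.inj h).symm, ?_⟩
    simp [word, wordS, start, gate]
  | append_singleton w c ih =>
    rw [DFA.eval_append_singleton] at h
    cases hq : M.eval w with
    | none => rw [hq] at h; simp [M] at h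
    | some q' =>
      rw [hq] at h
      obtain ⟨h1, h2⟩ := ih q' hq
      simp only [M, Option.bind_some] at h
      split_ifs at h with hc
      subst h1
      obtain ⟨h3, h4⟩ := ext_ok (valid_run valid_start w) c hc
      rw [run_append, run_cons, run_nil]
      refine ⟨?_, ?_⟩
      · rw [h4]; exact (Option.some.inj h).symm
      · rw [h3, h2]

theorem M_eval_word (n : ℕ) : ∀ s : St, Valid s.1 → (word s).length = n →
    M.eval (word s) = some (info s) := by
  induction n with
  | zero =>
    intro s hs hn
    by_cases h0 : s = start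
    · subst h0
      have : word start = [] := by simp [word, wordS, start, gate]
      rw [this]; rfl
    · obtain ⟨s', c, hv, rfl, hc⟩ := parent hs h0
      obtain ⟨h3, h4⟩ := ext_ok hv c hc
      rw [h3] at hn; simp at hn
  | succ n ih =>
    intro s hs hn
    by_cases h0 : s = start
    · subst h0
      have : word start = [] := by simp [word, wordS, start, gate]
      rw [this] at hn; simp at hn
    · obtain ⟨s', c, hv, rfl, hc⟩ := parent hs h0
      obtain ⟨h3, h4⟩ := ext_ok hv c hc
      rw [h3, List.length_append, List.length_singleton] at hn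
      rw [h3, DFA.eval_append_singleton, ih s' hv (by omega), h4]
      simp [M, hc]

theorem NL_regular : NL.IsRegular := by
  refine ⟨Option Info, inferInstance, M, ?_⟩
  ext w
  rw [DFA.mem_accepts]
  constructor
  · intro h
    obtain ⟨q, hq⟩ := Option.isSome_iff_exists.1 h
    exact ⟨run start w, valid_run valid_start w, (M_eval w q hq).2⟩
  · rintro ⟨s, hs, rfl⟩
    rw [M_eval_word _ s hs rfl]
    rfl

/-! ### The group -/

open scoped commutatorElement

inductive Gen
  | X (k : Bool)
  | T (k : Bool)

/-- relators of the group -/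
def rels : Set (FreeGroup Gen) :=
  {r | (∃ k, r = FreeGroup.of (Gen.T k) * FreeGroup.of (Gen.T k)) ∨
    (r = ⁅FreeGroup.of (Gen.T false), FreeGroup.of (Gen.T true)⁆) ∨
    (∃ k, r = ⁅FreeGroup.of (Gen.X k),
      FreeGroup.of (Gen.T k) * FreeGroup.of (Gen.X k) * FreeGroup.of (Gen.T k)⁆)}

abbrev GG := PresentedGroup rels

abbrev VSt := {s : St // Valid s.1}

def lp (c : Letter) : Equiv.Perm VSt where
  toFun s := ⟨stp s.1 c, valid_stp s.2 c⟩
  invFun s := ⟨stp s.1 c.inv, valid_stp s.2 c.inv⟩
  left_inv s := Subtype.ext (stp_inv s.2 c)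
  right_inv s := Subtype.ext (stp_inv' s.2 c)

@[simp] theorem lp_val (c : Letter) (s : VSt) : (lp c s).1 = stp s.1 c := rfl

theorem lp_T_T (k : Bool) : lp (T k) * lp (T k) = 1 := by
  ext1 s; apply Subtype.ext; simp [stp]

theorem lp_T_comm : lp (T false) * lp (T true) = lp (T true) * lp (T false) := by
  ext1 s; apply Subtype.ext; simp [stp, flp_comm]

theorem lp_X_comm (k : Bool) :
    lp (X k true) * (lp (T k) * lp (X k true) * lp (T k)) =
      (lp (T k) * lp (X k true) * lp (T k)) * lp (X k true) := by
  ext1 s
  apply Subtype.ext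
  obtain ⟨⟨st, f⟩, hs⟩ := s
  simp only [Equiv.Perm.coe_mul, Function.comp_apply, lp_val, stp, own_flp, own_flp', flp_flp]
  rw [upd_upd hs, upd_upd hs, add_comm]

def psi : Gen → (Equiv.Perm VSt)ᵐᵒᵖ
  | Gen.X k => MulOpposite.op (lp (X k true))
  | Gen.T k => MulOpposite.op (lp (T k))

theorem psi_rels : ∀ r ∈ rels, FreeGroup.lift psi r = 1 := by
  rintro r (⟨k, rfl⟩ | rfl | ⟨k, rfl⟩)
  · simp only [map_mul, FreeGroup.lift_apply_of, psi, ← MulOpposite.op_mul, lp_T_T,
      MulOpposite.op_one]
  · rw [map_commutatorElement, commutatorElement_eq_one_iff_mul_comm]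
    simp only [FreeGroup.lift_apply_of, psi, ← MulOpposite.op_mul, lp_T_comm]
  · rw [map_commutatorElement, commutatorElement_eq_one_iff_mul_comm]
    simp only [map_mul, FreeGroup.lift_apply_of, psi, ← MulOpposite.op_mul]
    congr 1
    have := lp_X_comm k
    simp only [mul_assoc] at this ⊢
    exact this.symm

def Phi : GG →* (Equiv.Perm VSt)ᵐᵒᵖ := PresentedGroup.toGroup psi_rels

def gT (k : Bool) : GG := PresentedGroup.of (Gen.T k)
def gX (k : Bool) : GG := PresentedGroup.of (Gen.X k)

def lv : Letter → GG
  | X k e => cond e (gX k) (gX k)⁻¹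
  | T k => gT k

theorem gT_sq (k : Bool) : gT k * gT k = 1 := by
  have : (FreeGroup.of (Gen.T k) * FreeGroup.of (Gen.T k)) ∈ rels := Or.inl ⟨k, rfl⟩
  have h := PresentedGroup.one_of_mem this
  simpa [gT, PresentedGroup.of] using h

theorem gT_inv (k : Bool) : (gT k)⁻¹ = gT k := by
  rw [inv_eq_iff_mul_eq_one]; exact gT_sq k

theorem gT_comm' : gT false * gT true = gT true * gT false := by
  have : (⁅FreeGroup.of (Gen.T false), FreeGroup.of (Gen.T true)⁆) ∈ rels := Or.inr (Or.inl rfl)
  have h := PresentedGroup.one_of_mem this
  rw [map_commutatorElement, commutatorElement_eq_one_iff_mul_comm] at h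
  exact h

theorem gT_comm (k k' : Bool) : Commute (gT k) (gT k') := by
  cases k <;> cases k'
  · exact Commute.refl _
  · exact gT_comm'
  · exact gT_comm'.symm
  · exact Commute.refl _

theorem gX_comm (k : Bool) : Commute (gX k) (gT k * gX k * gT k) := by
  have : (⁅FreeGroup.of (Gen.X k),
      FreeGroup.of (Gen.T k) * FreeGroup.of (Gen.X k) * FreeGroup.of (Gen.T k)⁆) ∈ rels :=
    Or.inr (Or.inr ⟨k, rfl⟩)
  have h := PresentedGroup.one_of_mem this
  rw [map_commutatorElement, commutatorElement_eq_one_iff_mul_comm] at h
  simp only [map_mul] at h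
  exact h

theorem lv_inv (c : Letter) : lv c.inv = (lv c)⁻¹ := by
  cases c with
  | X k e => cases e <;> simp [lv, Letter.inv]
  | T k => simp [lv, Letter.inv, gT_inv]

theorem Phi_lv (c : Letter) : Phi (lv c) = MulOpposite.op (lp c) := by
  cases c with
  | X k e =>
    cases e
    · show Phi (gX k)⁻¹ = _
      rw [map_inv]
      have : Phi (gX k) = MulOpposite.op (lp (X k true)) := PresentedGroup.toGroup.of psi_rels
      rw [this, ← MulOpposite.op_inv]
      congr 1
    · exact PresentedGroup.toGroup.of psi_rels
  | T k => exact PresentedGroup.toGroup.of psi_rels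

theorem Phi_ev (w : List Letter) (s : VSt) :
    ((MulOpposite.unop (Phi (ev lv w))) s).1 = run s.1 w := by
  induction w generalizing s with
  | nil => simp
  | cons c w ih =>
    rw [ev_cons, map_mul, Phi_lv, MulOpposite.unop_mul, MulOpposite.unop_op]
    rw [Equiv.Perm.mul_apply, ih]
    rfl

theorem run_eq_of_ev_eq {u v : List Letter} (h : ev lv u = ev lv v) : run start u = run start v := by
  have h1 := Phi_ev u ⟨start, valid_start⟩
  have h2 := Phi_ev v ⟨start, valid_start⟩
  rw [h] at h1
  exact h1.symm.trans h2

/-! evaluation of states -/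

def conjp (b : Bool) (k : Bool) : GG := cond b (gT k) 1

theorem conjp_sq (b k : Bool) : conjp b k * conjp b k = 1 := by
  cases b <;> simp [conjp, gT_sq]

def iota (k i : Bool) (a : ℤ × ℤ) : GG :=
  conjp i (!k) * (gX k ^ a.1 * (gT k * gX k * gT k) ^ a.2) * conjp i (!k)

theorem iota_zero (k i : Bool) : iota k i 0 = 1 := by simp [iota, conjp_sq]

theorem iota_add (k i : Bool) (a b : ℤ × ℤ) : iota k i (a + b) = iota k i a * iota k i b := by
  unfold iota
  have h1 : (gX k) ^ (a + b).1 * (gT k * gX k * gT k) ^ (a + b).2 =
      ((gX k) ^ a.1 * (gT k * gX k * gT k) ^ a.2) * ((gX k) ^ b.1 * (gT k * gX k * gT k) ^ b.2) := by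
    have hc := ((gX_comm k).zpow_zpow b.1 a.2).eq
    rw [Prod.fst_add, Prod.snd_add, zpow_add, zpow_add]
    calc _ = gX k ^ a.1 * (gX k ^ b.1 * (gT k * gX k * gT k) ^ a.2) *
          (gT k * gX k * gT k) ^ b.2 := by simp only [mul_assoc]
      _ = _ := by rw [hc]; simp only [mul_assoc]
  rw [h1]
  have h2 := conjp_sq i (!k)
  calc _ = conjp i (!k) * (gX k ^ a.1 * (gT k * gX k * gT k) ^ a.2) * 1 *
        (gX k ^ b.1 * (gT k * gX k * gT k) ^ b.2) * conjp i (!k) := by simp only [mul_assoc, one_mul]
    _ = _ := by rw [← h2]; simp only [mul_assoc]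

def evS : List Syl → GG
  | [] => 1
  | s :: st => evS st * iota s.k s.i s.a

theorem evS_push {k i : Bool} {a : ℤ × ℤ} {st : List Syl} :
    evS (push k i a st) = evS st * iota k i a := by
  unfold push
  split_ifs with h
  · subst h; simp [iota_zero]
  · rfl

theorem evS_upd {k i : Bool} {c : ℤ × ℤ} {st : List Syl} (h : Valid st) :
    evS (upd k i c st) = evS st * iota k i c := by
  obtain ⟨a, st', h1, h2, rfl⟩ := exists_push k i h
  rw [upd_push h2, evS_push, evS_push, iota_add, mul_assoc]

def evF (f : F) : GG := conjp f.1 false * conjp f.2 true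

theorem evF_eq (k : Bool) (f : F) : evF f = conjp (own (!k) f) (!k) * conjp (own k f) k := by
  obtain ⟨f1, f2⟩ := f
  cases k
  · have : Commute (conjp f1 false) (conjp f2 true) := by
      cases f1 <;> cases f2 <;> simp [conjp, Commute.one_left, Commute.one_right, gT_comm]
    exact this.eq
  · rfl

def evSt (s : St) : GG := evS s.1 * evF s.2

theorem evF_flp (k : Bool) (f : F) : evF (flp k f) = evF f * gT k := by
  rw [evF_eq k, evF_eq k, own_flp, own_flp', mul_assoc]
  congr 1
  cases own k f <;> simp [conjp, gT_sq]

theorem evSt_stp {s : St} (h : Valid s.1) (c : Letter) : evSt (stp s c) = evSt s * lv c := by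
  obtain ⟨st, f⟩ := s
  cases c with
  | T k => simp [stp, evSt, evF_flp, lv, mul_assoc]
  | X k e =>
    simp only [stp, evSt]
    rw [evS_upd h, mul_assoc, mul_assoc]
    congr 1
    rw [evF_eq k]
    have hX : lv (X k e) = gX k ^ (sg e) := by cases e <;> simp [lv, sg]
    rw [hX]
    generalize own (!k) f = b
    generalize own k f = o
    have h1 : iota k b (uv o (sg e)) =
        conjp b (!k) * (conjp o k * gX k ^ (sg e) * conjp o k) * conjp b (!k) := by
      unfold iota
      cases o
      · simp [uv, conjp]
      · simp only [uv, conjp, cond_true]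
        have : (gT k * gX k * gT k) ^ (sg e) = gT k * gX k ^ (sg e) * gT k := by
          have h3 : gT k * gX k * gT k = gT k * gX k * (gT k)⁻¹ := by rw [gT_inv]
          rw [h3, conj_zpow, gT_inv]
        rw [this]; simp
    rw [h1]
    have h2 := conjp_sq b (!k)
    have h3 := conjp_sq o k
    calc conjp b (!k) * (conjp o k * gX k ^ sg e * conjp o k) * conjp b (!k) *
          (conjp b (!k) * conjp o k)
        = conjp b (!k) * (conjp o k * gX k ^ sg e * conjp o k) * (conjp b (!k) * conjp b (!k)) *
          conjp o k := by simp only [mul_assoc]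
      _ = conjp b (!k) * (conjp o k * gX k ^ sg e * (conjp o k * conjp o k)) := by
          rw [h2]; simp only [mul_assoc, mul_one]
      _ = _ := by rw [h3]; simp only [mul_assoc, mul_one]

theorem evSt_run {s : St} (h : Valid s.1) (w : List Letter) :
    evSt (run s w) = evSt s * ev lv w := by
  induction w generalizing s with
  | nil => simp
  | cons c w ih => rw [run_cons, ih (valid_stp h c), evSt_stp h, ev_cons, mul_assoc]

theorem evSt_start : evSt start = 1 := by simp [evSt, evS, evF, start, conjp]

theorem ev_eq_evSt (w : List Letter) : ev lv w = evSt (run start w) := by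
  rw [evSt_run valid_start, evSt_start, one_mul]

theorem ev_eq_iff (u v : List Letter) : ev lv u = ev lv v ↔ run start u = run start v :=
  ⟨run_eq_of_ev_eq, fun h => by rw [ev_eq_evSt, ev_eq_evSt, h]⟩

theorem exists_word (g : GG) : ∃ w : List Letter, ev lv w = g := by
  have hg : g ∈ Subgroup.closure (Set.range (PresentedGroup.of : Gen → GG)) := by
    rw [PresentedGroup.closure_range_of]; trivial
  induction hg using Subgroup.closure_induction with
  | mem x hx =>
    obtain ⟨y, rfl⟩ := hx
    cases y with
    | X k => exact ⟨[X k true], by simp [lv, gX]⟩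
    | T k => exact ⟨[T k], by simp [lv, gT]⟩
  | one => exact ⟨[], by simp⟩
  | mul x y _ _ hx hy =>
    obtain ⟨u, rfl⟩ := hx
    obtain ⟨v, rfl⟩ := hy
    exact ⟨u ++ v, by simp⟩
  | inv x _ hx =>
    obtain ⟨u, rfl⟩ := hx
    refine ⟨(u.map Letter.inv).reverse, ?_⟩
    induction u with
    | nil => simp
    | cons c u ih => simp [lv_inv, ih]

def near (C : ℕ) (g h : GG) : Prop := ∃ w : List Letter, w.length ≤ C ∧ g * ev lv w = h

theorem near_refl (C : ℕ) (g : GG) : near C g g := ⟨[], by simp, by simp⟩

theorem ev_inv_word (w : List Letter) : ev lv (w.map Letter.inv).reverse = (ev lv w)⁻¹ := by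
  induction w with
  | nil => simp
  | cons c u ih => simp [lv_inv, ih]

theorem near_symm {C : ℕ} {g h : GG} (h1 : near C g h) : near C h g := by
  obtain ⟨w, hw, rfl⟩ := h1
  exact ⟨(w.map Letter.inv).reverse, by simpa using hw, by rw [ev_inv_word]; group⟩

theorem near_trans {C C' : ℕ} {g h k : GG} (h1 : near C g h) (h2 : near C' h k) :
    near (C + C') g k := by
  obtain ⟨w, hw, rfl⟩ := h1
  obtain ⟨w', hw', rfl⟩ := h2
  exact ⟨w ++ w', by simp; omega, by simp [mul_assoc]⟩

theorem near_mono {C C' : ℕ} {g h : GG} (h1 : near C g h) (hC : C ≤ C') : near C' g h := by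
  obtain ⟨w, hw, rfl⟩ := h1
  exact ⟨w, by omega, rfl⟩

theorem near_left {C : ℕ} {g h : GG} (x : GG) (h1 : near C g h) : near C (x * g) (x * h) := by
  obtain ⟨w, hw, rfl⟩ := h1
  exact ⟨w, hw, by rw [mul_assoc]⟩

theorem near_take {u : List Letter} {t t' C : ℕ} (h1 : t ≤ t') (h2 : t' ≤ t + C) :
    near C (ev lv (u.take t)) (ev lv (u.take t')) := by
  refine ⟨(u.drop t).take (t' - t), by simp; omega, ?_⟩
  rw [← ev_append]
  congr 1
  have : t' = t + (t' - t) := by omega
  conv_rhs => rw [this, List.take_add]

theorem near_take' {u : List Letter} {t t' C : ℕ} (h1 : t ≤ t' + C) (h2 : t' ≤ t + C) :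
    near C (ev lv (u.take t)) (ev lv (u.take t')) := by
  rcases le_total t t' with h | h
  · exact near_take h h2
  · exact near_symm (near_take h h1)

def FT (C : ℕ) (u v : List Letter) : Prop :=
  ∀ t : ℕ, near C (ev lv (u.take t)) (ev lv (v.take t))

theorem FT_symm {C : ℕ} {u v : List Letter} (h : FT C u v) : FT C v u := fun t => near_symm (h t)

theorem FT_refl (C : ℕ) (u : List Letter) : FT C u u := fun _ => near_refl _ _

theorem FT_mono {C C' : ℕ} {u v : List Letter} (h : FT C u v) (hC : C ≤ C') : FT C' u v :=
  fun t => near_mono (h t) hC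

theorem FT_append (u : List Letter) (c : Letter) : FT 1 u (u ++ [c]) := by
  intro t
  rcases Nat.lt_or_ge u.length t with h | h
  · have h1 : (u ++ [c]).take t = u ++ [c] := List.take_of_length_le (by simp; omega)
    have h2 : u.take t = u := List.take_of_length_le (by omega)
    rw [h1, h2]
    exact ⟨[c], by simp, by simp⟩
  · rw [List.take_append_of_le_length h]
    exact near_refl _ _

theorem FT_left {C : ℕ} {u v : List Letter} (P : List Letter) (h : FT C u v) :
    FT C (P ++ u) (P ++ v) := by
  intro t
  rw [List.take_append, List.take_append, ev_append, ev_append]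
  exact near_left _ (h _)

/-- distance of an initial part of `M1 c^n E` to the powers -/
theorem near_run (M1 E : List Letter) (c : Letter) (n t B : ℕ) (h1 : M1.length ≤ B)
    (h2 : E.length ≤ B) :
    near B (ev lv ((M1 ++ List.replicate n c ++ E).take t)) (ev lv M1 * lv c ^ (min t n)) := by
  have e1 : ev lv M1 * lv c ^ (min t n) =
      ev lv ((M1 ++ List.replicate n c ++ E).take (M1.length + min t n)) := by
    rw [List.append_assoc, List.take_length_add_append, List.take_append_of_le_length (by simp),
      List.take_replicate]
    simp [ev]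
  have e2 : (M1 ++ List.replicate n c ++ E).take t =
      (M1 ++ List.replicate n c ++ E).take (min t (M1.length + n + E.length)) := by
    rcases Nat.lt_or_ge t (M1.length + n + E.length) with h | h
    · rw [min_eq_left h.le]
    · rw [min_eq_right h, List.take_of_length_le (by simp; omega),
        List.take_of_length_le (by simp; omega)]
  rw [e1, e2]
  apply near_take' <;> omega

theorem FT_par (M1 M2 E1 E2 : List Letter) (c : Letter) (n : ℕ) (z : GG)
    (h1 : M1.length ≤ 3) (h2 : M2.length ≤ 3) (h3 : E1.length ≤ 3) (h4 : E2.length ≤ 3)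
    (hz : ev lv M1 * z = ev lv M2) (hn : n = 0 ∨ Commute z (lv c)) (hz' : near 6 1 z) :
    FT 12 (M1 ++ List.replicate n c ++ E1) (M2 ++ List.replicate n c ++ E2) := by
  intro t
  have a1 := near_run M1 E1 c n t 3 h1 h3
  have a2 := near_run M2 E2 c n t 3 h2 h4
  have a3 : near 6 (ev lv M1 * lv c ^ (min t n)) (ev lv M2 * lv c ^ (min t n)) := by
    have : ev lv M2 * lv c ^ (min t n) = ev lv M1 * lv c ^ (min t n) * z := by
      rw [← hz]
      rcases hn with rfl | hn
      · simp
      · rw [mul_assoc, mul_assoc, (hn.pow_right _).eq]
    rw [this]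
    have := near_left (ev lv M1 * lv c ^ (min t n)) hz'
    rwa [mul_one] at this
  exact near_trans (near_trans a1 a3) (near_symm a2)

theorem len_mv (g f : F) : (mv g f).length ≤ 2 := by
  unfold mv
  cases xor g.2 f.2 <;> cases xor g.1 f.1 <;> simp

theorem len_mvk (k d e : Bool) : (mvk k d e).length ≤ 2 := by
  cases k <;> cases d <;> cases e <;> simp [mvk]

theorem ev_mvk (k e : Bool) : ev lv (mvk k true e) = ev lv (mvk k false e) * gT k := by
  cases k <;> cases e <;> simp [mvk, lv]
  exact gT_comm'.symm

theorem FT_T {s : St} (k : Bool) : FT 12 (word s) (word (stp s (T k))) := by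
  obtain ⟨st, f⟩ := s
  simp only [word, stp]
  apply FT_left
  have := FT_par (mv (gate st) f) (mv (gate st) (flp k f)) [] [] (T k) 0
    ((ev lv (mv (gate st) f))⁻¹ * ev lv (mv (gate st) (flp k f)))
    (le_trans (len_mv _ _) (by norm_num)) (le_trans (len_mv _ _) (by norm_num)) (by simp) (by simp)
    (by group) (Or.inl rfl) ?_
  · simpa using this
  · refine ⟨((mv (gate st) f).map Letter.inv).reverse ++ mv (gate st) (flp k f), ?_, ?_⟩
    · have h1 := len_mv (gate st) f
      have h2 := len_mv (gate st) (flp k f)
      simp; omega
    · rw [ev_append, ev_inv_word]; group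

theorem comm_X (k e e' : Bool) : Commute (gT k * lv (X k e) * gT k) (lv (X k e')) := by
  have h := (gX_comm k).symm
  have h2 : (gT k * gX k * gT k)⁻¹ = gT k * (gX k)⁻¹ * gT k := by
    simp [mul_assoc, gT_inv]
  cases e <;> cases e' <;> simp only [lv, cond_true, cond_false]
  · rw [← h2]; exact h.inv_inv
  · rw [← h2]; exact h.inv_left
  · exact h.inv_right
  · exact h

theorem FT_X_pos {s : St} (hs : Valid s.1) (k e : Bool)
    (h1 : 0 ≤ pick (cc k s) (own k s.2) * sg e) : FT 12 (word s) (word (stp s (X k e))) := by
  rw [word_stpX k e hs, word_eq k hs]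
  apply FT_left
  generalize (own k (gate (cb k s)) == own k s.2) = same
  generalize (own (!k) (gate (cb k s)) ^^ own (!k) s.2) = b
  generalize pick (cc k s) (own k s.2) = m at *
  generalize pick (cc k s) (!(own k s.2)) = n at *
  by_cases h2 : same = true → n = 0
  · rw [blockWord_ext h1 h2]
    exact FT_mono (FT_append _ _) (by norm_num)
  · push Not at h2
    obtain ⟨rfl, hn⟩ := h2
    have h3 := rp_add (k := k) h1
    have h4 := add_sg_ne h1
    have hz' : near 6 1 (gT k * lv (X k e) * gT k) := by
      refine ⟨[T k, X k e, T k], by simp, ?_⟩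
      simp [lv, mul_assoc]
    by_cases hm : m = 0
    · subst hm
      simp only [zero_add] at h3 h4
      simp only [blockWord, if_true, hn, if_false, h3, h4, zero_add]
      have := FT_par (mvk k true b) (mvk k false b ++ [X k e, T k]) [T k] [T k]
        (X k (decide (0 < n))) n.natAbs (gT k * lv (X k e) * gT k)
        (le_trans (len_mvk _ _ _) (by norm_num))
        (by cases k <;> cases b <;> simp [mvk]) (by simp) (by simp)
        (by rw [ev_mvk]; simp only [ev_append, ev_cons, ev_nil, mul_one]
            simp only [mul_assoc]
            rw [← mul_assoc (gT k) (gT k), gT_sq, one_mul]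
            rfl)
        (Or.inr (comm_X _ _ _)) hz'
      simpa [rp] using this
    · simp only [blockWord, if_true, hn, hm, if_false, h3, h4]
      have := FT_par [T k] [X k e, T k] [T k] [T k]
        (X k (decide (0 < n))) n.natAbs (gT k * lv (X k e) * gT k)
        (by simp) (by simp) (by simp) (by simp)
        (by simp only [ev_cons, ev_nil, mul_one]
            change gT k * (gT k * lv (X k e) * gT k) = lv (X k e) * gT k
            rw [← mul_assoc, ← mul_assoc, gT_sq, one_mul])
        (Or.inr (comm_X _ _ _)) hz'
      have := FT_left (mvk k false b ++ rp k m) this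
      simpa [rp] using this

theorem FT_stp {s : St} (hs : Valid s.1) (c : Letter) : FT 12 (word s) (word (stp s c)) := by
  cases c with
  | T k => exact FT_T k
  | X k e =>
    by_cases h1 : 0 ≤ pick (cc k s) (own k s.2) * sg e
    · exact FT_X_pos hs k e h1
    · have h2 := FT_X_pos (s := stp s (X k e)) (valid_stp hs _) k (!e) (by
        rw [cc_stpX hs]
        have : (stp s (X k e)).2 = s.2 := rfl
        rw [this, pick_add, pick_uv, sg_not]
        generalize pick (cc k s) (own k s.2) = m at *
        cases e <;> simp [sg] at * <;> omega)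
      have h3 := stp_inv hs (X k e)
      simp only [Letter.inv] at h3
      rw [h3] at h2
      exact FT_symm h2

/-- the ball -/
def ball (C : ℕ) : Set GG := {g | near C 1 g}

theorem ball_finite (C : ℕ) : (ball C).Finite := by
  have h := (List.finite_length_le Letter C).image (fun w => ev lv w)
  apply h.subset
  rintro g ⟨w, hw, rfl⟩
  exact ⟨w, hw, by simp⟩

theorem near_iff {C : ℕ} {g h : GG} : near C g h ↔ g⁻¹ * h ∈ ball C := by
  constructor
  · rintro ⟨w, hw, rfl⟩
    exact ⟨w, hw, by group⟩
  · rintro ⟨w, hw, h1⟩
    refine ⟨w, hw, ?_⟩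
    rw [one_mul] at h1
    rw [h1]; group

def geo (w : List Letter) : Prop := w.length = (word (run start w)).length

theorem geo_last {w : List Letter} {c : Letter} {s : St} (hs : run start (w ++ [c]) = s)
    (hg : geo (w ++ [c])) : geo w ∧ run start w = stp s c.inv ∧
    (∀ k, c = T k → own k (gate s.1) ≠ own k s.2) ∧
    (∀ k e, c = X k e → 0 < pick (cc k s) (own k s.2) * sg e) := by
  have hv := valid_run valid_start w
  have h1 : run start w = stp s c.inv := by
    rw [← hs, run_append, run_cons, run_nil, stp_inv hv]
  have hvs : Valid s.1 := by rw [← hs]; exact valid_run valid_start _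
  have h2 := len_run_le w
  have h3 := len_stp_le hv c
  have h4 : run start (w ++ [c]) = stp (run start w) c := by simp
  unfold geo at *
  rw [h4, List.length_append, List.length_singleton] at hg
  have h5 : (word (stp s c.inv)).length + 1 = (word s).length := by
    rw [← h1, ← hs, h4]; omega
  refine ⟨by omega, h1, ?_, ?_⟩
  · rintro k rfl h6
    have := len_stpT h6
    simp only [Letter.inv] at h5
    omega
  · rintro k e rfl
    by_contra h6
    have := len_stpX (k := k) (e := !e) hvs (by rw [sg_not]; nlinarith)
    simp only [Letter.inv] at h5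
    omega

theorem geo_start {w : List Letter} (hg : geo w) (hs : run start w = start) : w = [] := by
  unfold geo at hg
  rw [hs] at hg
  have : word start = [] := by simp [word, wordS, start, gate]
  rw [this] at hg
  exact List.length_eq_zero_iff.1 hg

/-- the family of states -/
def S (k : Bool) (a b : ℕ) (j : Bool) : St := (push k true ((a : ℤ), (b : ℤ)) [], mkF k j true)

theorem cc_S (k j : Bool) (a b : ℕ) : cc k (S k a b j) = ((a : ℤ), (b : ℤ)) := by
  unfold cc S
  simp only [own_mkF']
  exact cont_push (by simp [Fresh])

theorem cc_S' (k j : Bool) (a b : ℕ) : cc (!k) (S k a b j) = 0 := by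
  unfold cc S
  simp only [Bool.not_not, push]
  split_ifs with h
  · rfl
  · simp [cont]

theorem own_S (k j : Bool) (a b : ℕ) : own k (S k a b j).2 = j := by simp [S]
theorem own_S' (k j : Bool) (a b : ℕ) : own (!k) (S k a b j).2 = true := by simp [S]

theorem gate_S (k j : Bool) (a b : ℕ) (h : a ≠ 0 ∨ b ≠ 0) :
    gate (S k a b j).1 = mkF k (decide (b ≠ 0)) true := by
  have h0 : ((a : ℤ), (b : ℤ)) ≠ 0 := by
    simp [Prod.ext_iff]; tauto
  simp only [S, push, h0, if_false, gate]
  congr 1
  have h1 : own k (gate ([] : List Syl)) = false := by cases k <;> rfl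
  simp only [gate] at h1
  rw [h1]
  unfold ent outb
  by_cases ha : a = 0 <;> by_cases hb : b = 0 <;> simp_all [pick]

theorem stp_S_T (k j : Bool) (a b : ℕ) : stp (S k a b j) (T k) = S k a b (!j) := by
  cases k <;> rfl

theorem stp_S_X (k : Bool) (a b : ℕ) : stp (S k (a + 1) b false) (X k false) = S k a b false := by
  simp only [S, stp, own_mkF, own_mkF']
  rw [upd_push (by simp [Fresh])]
  congr 2
  simp [uv, sg]

theorem stp_S_X' (k : Bool) (a b : ℕ) : stp (S k a (b + 1) true) (X k false) = S k a b true := by
  simp only [S, stp, own_mkF, own_mkF']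
  rw [upd_push (by simp [Fresh])]
  congr 2
  simp [uv, sg]

theorem S_zero (k j : Bool) : S k 0 0 j = ([], mkF k j true) := by simp [S, push]

theorem geo_one {k : Bool} {w : List Letter} (hg : geo w)
    (hs : run start w = ([], mkF k false true)) : w = [T (!k)] := by
  rcases List.eq_nil_or_concat w with rfl | ⟨w', c, rfl⟩
  · exfalso; rw [run_nil] at hs
    cases k <;> simp [start, mkF] at hs
  · rw [List.concat_eq_append] at *
    obtain ⟨g1, g2, g3, g4⟩ := geo_last hs hg
    cases c with
    | X k' e => exact absurd (g4 k' e rfl) (by simp [cc, cont])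
    | T k' =>
      have h5 := g3 k' rfl
      have hk : k' = !k := by
        cases k <;> cases k' <;> simp [gate, own, mkF] at h5 <;> rfl
      subst hk
      have : run start w' = start := by
        rw [g2]
        cases k <;> rfl
      rw [geo_start g1 this]; rfl

theorem geo_last_S {k j : Bool} {a b : ℕ} {w : List Letter} (hg : geo w)
    (hs : run start w = S k a b j) (h : a ≠ 0 ∨ b ≠ 0) :
    (∃ w', w = w' ++ [T k] ∧ geo w' ∧ run start w' = S k a b (!j) ∧ j ≠ decide (b ≠ 0)) ∨
    (j = false ∧ ∃ a', a = a' + 1 ∧ ∃ w', w = w' ++ [X k true] ∧ geo w' ∧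
      run start w' = S k a' b false) ∨
    (j = true ∧ ∃ b', b = b' + 1 ∧ ∃ w', w = w' ++ [X k true] ∧ geo w' ∧
      run start w' = S k a b' true) := by
  rcases List.eq_nil_or_concat w with rfl | ⟨w', c, rfl⟩
  · exfalso
    rw [run_nil] at hs
    have := congrArg (fun s => cc k s) hs
    simp only [cc_S] at this
    simp [start, cc, cont] at this
    have h1 : ((a : ℤ), (b : ℤ)).1 = 0 := by rw [← this]; rfl
    have h2 : ((a : ℤ), (b : ℤ)).2 = 0 := by rw [← this]; rfl
    simp only at h1 h2
    rcases h with h | h
    · exact h (by exact_mod_cast h1)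
    · exact h (by exact_mod_cast h2)
  · rw [List.concat_eq_append] at *
    obtain ⟨g1, g2, g3, g4⟩ := geo_last hs hg
    cases c with
    | T k' =>
      have h5 := g3 k' rfl
      rw [gate_S k j a b h] at h5
      rcases Bool.eq_or_eq_not k' k with rfl | rfl
      · left
        refine ⟨w', rfl, g1, ?_, ?_⟩
        · rw [g2]; exact stp_S_T _ _ _ _
        · rw [own_S, own_mkF] at h5
          exact fun h6 => h5 h6.symm
      · exfalso
        rw [own_S', own_mkF'] at h5
        exact h5 rfl
    | X k' e =>
      right
      have h5 := g4 k' e rfl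
      rcases Bool.eq_or_eq_not k' k with rfl | rfl
      · rw [cc_S, own_S] at h5
        have he : e = true := by
          cases e
          · exfalso
            cases j <;> simp [pick, sg] at h5 <;> omega
          · rfl
        subst he
        cases j
        · left
          refine ⟨rfl, ?_⟩
          have : a ≠ 0 := by rintro rfl; simp [pick] at h5
          obtain ⟨a', rfl⟩ := Nat.exists_eq_succ_of_ne_zero this
          exact ⟨a', rfl, w', rfl, g1, by rw [g2]; exact stp_S_X _ _ _⟩
        · right
          refine ⟨rfl, ?_⟩
          have : b ≠ 0 := by rintro rfl; simp [pick] at h5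
          obtain ⟨b', rfl⟩ := Nat.exists_eq_succ_of_ne_zero this
          exact ⟨b', rfl, w', rfl, g1, by rw [g2]; exact stp_S_X' _ _ _⟩
      · exfalso
        rw [cc_S'] at h5
        simp at h5

def rep (k : Bool) (n : ℕ) : List Letter := List.replicate n (X k true)

theorem rep_succ (k : Bool) (n : ℕ) : rep k (n + 1) = rep k n ++ [X k true] := by
  simp [rep, List.replicate_succ']

theorem geo_H0 (k : Bool) (a : ℕ) : ∀ w, geo w → run start w = S k a 0 false →
    w = T (!k) :: rep k a := by
  induction a with
  | zero =>
    intro w hg hs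
    rw [S_zero] at hs
    rw [geo_one hg hs]; rfl
  | succ a ih =>
    intro w hg hs
    rcases geo_last_S hg hs (by simp) with ⟨w', _, _, _, h⟩ | ⟨_, a', ha, w', rfl, h2, h3⟩ | ⟨h, _⟩
    · simp at h
    · have : a' = a := by omega
      subst this
      rw [ih w' h2 h3, rep_succ]; simp
    · simp at h

theorem geo_H (k : Bool) (a b : ℕ) : ∀ w, geo w → run start w = S k (a + 1) b true →
    w = T (!k) :: rep k (a + 1) ++ [T k] ++ rep k b := by
  induction b with
  | zero =>
    intro w hg hs
    rcases geo_last_S hg hs (by simp) with ⟨w', rfl, h1, h2, _⟩ | ⟨h, _⟩ | ⟨_, b', hb, _⟩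
    · rw [geo_H0 k (a + 1) w' h1 h2]; simp [rep]
    · simp at h
    · omega
  | succ b ih =>
    intro w hg hs
    rcases geo_last_S hg hs (by simp) with ⟨w', _, _, _, h⟩ | ⟨h, _⟩ | ⟨_, b', hb, w', rfl, h2, h3⟩
    · simp at h
    · simp at h
    · have : b' = b := by omega
      subst this
      rw [ih w' h2 h3, rep_succ k b']; simp

theorem geo_G0 (k : Bool) (b : ℕ) : ∀ w, geo w → run start w = S k 0 b true →
    (∃ w', w = T (!k) :: w') ∨ w = T k :: T (!k) :: rep k b := by
  induction b with
  | zero =>
    intro w hg hs
    rw [S_zero] at hs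
    rcases List.eq_nil_or_concat w with rfl | ⟨w', c, rfl⟩
    · exfalso; rw [run_nil] at hs
      cases k <;> simp [start, mkF] at hs
    · rw [List.concat_eq_append] at *
      obtain ⟨g1, g2, g3, g4⟩ := geo_last hs hg
      cases c with
      | X k' e => exact absurd (g4 k' e rfl) (by simp [cc, cont])
      | T k' =>
        rcases Bool.eq_or_eq_not k' k with rfl | rfl
        · left
          have : run start w' = ([], mkF k' false true) := by
            rw [g2]; cases k' <;> rfl
          rw [geo_one g1 this]
          exact ⟨[T k'], rfl⟩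
        · right
          have : run start w' = ([], mkF (!k) false true) := by
            rw [g2]; cases k <;> rfl
          rw [geo_one g1 this]
          simp [rep]
  | succ b ih =>
    intro w hg hs
    rcases geo_last_S hg hs (by simp) with ⟨w', _, _, _, h⟩ | ⟨h, _⟩ | ⟨_, b', hb, w', rfl, h2, h3⟩
    · simp at h
    · simp at h
    · have : b' = b := by omega
      subst this
      rcases ih w' h2 h3 with ⟨w'', rfl⟩ | rfl
      · left; exact ⟨w'' ++ [X k true], rfl⟩
      · right; rw [rep_succ]; simp

theorem geo_G (k : Bool) (a b : ℕ) : ∀ w, geo w → run start w = S k a (b + 1) false →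
    (∃ w', w = T (!k) :: w') ∨ w = T k :: T (!k) :: rep k (b + 1) ++ [T k] ++ rep k a := by
  induction a with
  | zero =>
    intro w hg hs
    rcases geo_last_S hg hs (by simp) with ⟨w', rfl, h1, h2, _⟩ | ⟨_, a', ha, _⟩ | ⟨h, _⟩
    · rcases geo_G0 k (b + 1) w' h1 h2 with ⟨w'', rfl⟩ | rfl
      · left; exact ⟨w'' ++ [T k], rfl⟩
      · right; simp [rep]
    · omega
    · simp at h
  | succ a ih =>
    intro w hg hs
    rcases geo_last_S hg hs (by simp) with ⟨w', rfl, h1, h2, _⟩ | ⟨_, a', ha, w', rfl, h2, h3⟩ |
      ⟨h, _⟩
    · rw [geo_H k a (b + 1) w' h1 h2]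
      left; exact ⟨_, rfl⟩
    · have : a' = a := by omega
      subst this
      rcases ih w' h2 h3 with ⟨w'', rfl⟩ | rfl
      · left; exact ⟨w'' ++ [X k true], rfl⟩
      · right; rw [rep_succ k a']; simp
    · simp at h

def wh (k : Bool) (a b : ℕ) : List Letter := T (!k) :: rep k a ++ [T k] ++ rep k b
def wg (k : Bool) (a b : ℕ) : List Letter := T k :: T (!k) :: rep k b ++ [T k] ++ rep k a

theorem rep_eq_rp (k : Bool) (n : ℕ) : rep k n = rp k (n : ℤ) := by
  unfold rep rp
  cases n with
  | zero => simp
  | succ n =>
    have : (0 : ℤ) < ((n + 1 : ℕ) : ℤ) := by positivity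
    simp only [this, decide_true, Int.natAbs_natCast]

theorem run_rp_nil (k j : Bool) (a : ℤ) :
    run (([] : List Syl), mkF k j true) (rp k a) = (push k true (uv j a) [], mkF k j true) := by
  rw [run_rp _ _ (by trivial), own_mkF, own_mkF', upd_fresh (by simp [Fresh])]

theorem run_rp_push (k j : Bool) (a : ℤ) (c : ℤ × ℤ) :
    run (push k true c [], mkF k j true) (rp k a) =
      (push k true (c + uv j a) [], mkF k j true) := by
  rw [run_rp _ _ (valid_push (by trivial) (by simp [Fresh])), own_mkF, own_mkF',
    upd_push (by simp [Fresh])]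

theorem run_wh (k : Bool) (a b : ℕ) : run start (wh k a b) = S k a b true := by
  unfold wh
  rw [rep_eq_rp, rep_eq_rp, run_append, run_append]
  simp only [run_cons, run_nil]
  have e1 : stp start (T (!k)) = (([] : List Syl), mkF k false true) := by cases k <;> rfl
  rw [e1, run_rp_nil]
  have e2 : stp (push k true (uv false (a : ℤ)) [], mkF k false true) (T k) =
    (push k true (uv false (a : ℤ)) [], mkF k true true) := by cases k <;> rfl
  rw [e2, run_rp_push]
  simp [S, uv]

theorem run_wg (k : Bool) (a b : ℕ) : run start (wg k a b) = S k a b false := by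
  unfold wg
  rw [rep_eq_rp, rep_eq_rp, run_append, run_append]
  simp only [run_cons, run_nil]
  have e1 : stp (stp start (T k)) (T (!k)) = (([] : List Syl), mkF k true true) := by
    cases k <;> rfl
  rw [e1, run_rp_nil]
  have e2 : stp (push k true (uv true (b : ℤ)) [], mkF k true true) (T k) =
    (push k true (uv true (b : ℤ)) [], mkF k false true) := by cases k <;> rfl
  rw [e2, run_rp_push]
  simp [S, uv]

theorem own_ff (k : Bool) : own k (false, false) = false := by cases k <;> rfl

theorem len_word_S_true (k : Bool) (n : ℕ) :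
    (word (S k (n + 1) (n + 1) true)).length = (wh k (n + 1) (n + 1)).length := by
  unfold S wh
  rw [word_push]
  simp only [gate, own_ff]
  have h0 : ((n : ℤ) + 1) ≠ 0 := by omega
  have h1 : ((n : ℤ) + 1).natAbs = n + 1 := by omega
  cases k <;> simp [wordS, blockWord, pick, h0, h1, mvk, rp, rep]

theorem len_word_S_false (k : Bool) (n : ℕ) :
    (word (S k (n + 1) (n + 1) false)).length = (wg k (n + 1) (n + 1)).length := by
  unfold S wg
  rw [word_push]
  simp only [gate, own_ff]
  have h0 : ((n : ℤ) + 1) ≠ 0 := by omega
  have h1 : ((n : ℤ) + 1).natAbs = n + 1 := by omega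
  cases k <;> simp [wordS, blockWord, pick, h0, h1, mvk, rp, rep] <;> omega

/-- minimality of `wh` -/
theorem wh_min (k : Bool) (n : ℕ) (v : List Letter) (h : ev lv v = ev lv (wh k (n + 1) (n + 1))) :
    (wh k (n + 1) (n + 1)).length < v.length ∨ v = wh k (n + 1) (n + 1) := by
  have h1 := run_eq_of_ev_eq h
  rw [run_wh] at h1
  have h2 := len_run_le v
  rw [h1, len_word_S_true] at h2
  rcases h2.lt_or_eq with h3 | h3
  · exact Or.inl h3
  · right
    exact geo_H k n (n + 1) v (by unfold geo; rw [h1, len_word_S_true, h3]) h1

theorem wg_min (k : Bool) (n : ℕ) (v : List Letter) (h : ev lv v = ev lv (wg k (n + 1) (n + 1))) :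
    (wg k (n + 1) (n + 1)).length < v.length ∨
    ((wg k (n + 1) (n + 1)).length = v.length ∧ ∃ v', v = T (!k) :: v') ∨
    v = wg k (n + 1) (n + 1) := by
  have h1 := run_eq_of_ev_eq h
  rw [run_wg] at h1
  have h2 := len_run_le v
  rw [h1, len_word_S_false] at h2
  rcases h2.lt_or_eq with h3 | h3
  · exact Or.inl h3
  · right
    rcases geo_G k (n + 1) n v (by unfold geo; rw [h1, len_word_S_false, h3]) h1 with h4 | h4
    · left; exact ⟨h3, h4⟩
    · right; exact h4

theorem lv_inj : Function.Injective lv := by
  intro c c' h
  have h1 : run start [c] = run start [c'] := run_eq_of_ev_eq (by simp [h])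
  have h2 : ∀ c : Letter, word (stp start c) = [c] := by
    intro c
    have := (ext_ok (s := start) valid_start c (by cases c <;> simp [extB, info, start, gate, topInfo])).1
    rw [this]
    simp [word, wordS, start, gate]
  have h3 := congrArg word h1
  simp only [run_cons, run_nil] at h3
  rw [h2, h2] at h3
  simpa using h3

/-! ### The main theorem -/
theorem wordVal_eq_ev {G : Type} [Group G] {A : Finset G} (w : List A) :
    wordVal w = ev (fun a : A => (a : G)) w := rfl

section
variable {A : Finset GG} (e : Letter ≃ A) (he : ∀ c, (e c : GG) = lv c)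

include he

theorem val_map (w : List Letter) : wordVal (w.map e) = ev lv w := by
  unfold wordVal ev
  rw [List.map_map]
  congr 1
  apply List.map_congr_left
  intro c _
  exact he c

theorem val_symm (w : List A) : wordVal w = ev lv (w.map e.symm) := by
  rw [← val_map e he]
  simp

theorem wga : WeaklyGeodesicallyAutomatic A := by
  refine ⟨{w | w.map e.symm ∈ NL}, ⟨?_, ?_, ?_⟩, ?_⟩
  · obtain ⟨σ, hσ, M, hM⟩ := NL_regular
    refine ⟨σ, hσ, M.comap e.symm, ?_⟩
    rw [DFA.accepts_comap, hM]
    rfl
  · intro g
    obtain ⟨w, hw⟩ := exists_word g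
    refine ⟨(word (run start w)).map e, ?_, ?_⟩
    · show ((word (run start w)).map e).map e.symm ∈ NL
      rw [List.map_map, Equiv.symm_comp_self, List.map_id]
      exact ⟨run start w, valid_run valid_start w, rfl⟩
    · rw [val_map e he, ← hw, ev_eq_iff, run_word (valid_run valid_start w)]
  · intro x hx
    simp only [padPair_eq]
    have hreg : Language.IsRegular ({w | w.map e.symm ∈ NL} : Language A) := by
      obtain ⟨σ, hσ, M, hM⟩ := NL_regular
      refine ⟨σ, hσ, M.comap e.symm, ?_⟩
      rw [DFA.accepts_comap, hM]
      rfl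
    have := pairLang_regular (fun a : A => (a : GG)) {w | w.map e.symm ∈ NL} hreg (ball 12)
      (ball_finite 12) x ?_
    · exact this
    · intro u hu v hv huv t
      obtain ⟨s, hs, hsu⟩ := hu
      obtain ⟨s', hs', hsv⟩ := hv
      rw [← wordVal_eq_ev, ← wordVal_eq_ev] at huv ⊢
      rw [val_symm e he, val_symm e he, List.map_take, List.map_take, ← near_iff]
      rw [val_symm e he, val_symm e he] at huv
      rw [← hsu, ← hsv] at huv ⊢
      suffices h : FT 12 (word s) (word s') from h t
      rcases hx with rfl | hx
      · rw [mul_one, ev_eq_iff, run_word hs, run_word hs'] at huv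
        rw [huv]; exact FT_refl _ _
      · obtain ⟨c, hc⟩ : ∃ c, lv c = x := ⟨e.symm ⟨x, hx⟩, by rw [← he]; simp⟩
        rw [← hc] at huv
        have h1 : ev lv (word s ++ [c]) = ev lv (word s') := by simpa using huv
        rw [ev_eq_iff, run_append, run_word hs, run_word hs'] at h1
        rw [← h1]
        exact FT_stp hs c
  · rintro w ⟨s, hs, hsw⟩ v hv
    rw [val_symm e he, val_symm e he, ev_eq_iff, ← hsw, run_word hs] at hv
    have := len_run_le (v.map e.symm)
    rw [hv, hsw] at this
    simpa using this

theorem wh_mem (r : LinearOrder A) (k : Bool) (n : ℕ) :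
    (wh k (n + 1) (n + 1)).map e ∈ ShortLexLanguage A r := by
  intro v hv hne
  rw [val_symm e he v, val_map e he] at hv
  rcases wh_min k n _ hv with h | h
  · apply List.Shortlex.of_length_lt
    simpa using h
  · exfalso
    apply hne
    rw [← h]; simp

theorem wg_mem (r : LinearOrder A) (k : Bool) (hk : r.lt (e (Letter.T k)) (e (Letter.T (!k))))
    (n : ℕ) : (wg k (n + 1) (n + 1)).map e ∈ ShortLexLanguage A r := by
  intro v hv hne
  rw [val_symm e he v, val_map e he] at hv
  rcases wg_min k n _ hv with h | ⟨h, v', h'⟩ | h
  · apply List.Shortlex.of_length_lt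
    simpa using h
  · apply List.Shortlex.of_lex
    · simpa using h
    · have : v = e (Letter.T (!k)) :: v'.map e := by
        have := congrArg (List.map e) h'
        simpa using this
      rw [this]
      exact List.Lex.rel hk
  · exfalso
    apply hne
    rw [← h]; simp

theorem not_sl (r : LinearOrder A) : ¬ IsAutomaticStructure A (ShortLexLanguage A r) := by
  rintro ⟨-, -, h⟩
  obtain ⟨k, hk⟩ : ∃ k, r.lt (e (Letter.T k)) (e (Letter.T (!k))) := by
    rcases @lt_trichotomy _ r (e (Letter.T false)) (e (Letter.T true)) with h | h | h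
    · exact ⟨false, h⟩
    · exact absurd (e.injective h) (by simp)
    · exact ⟨true, h⟩
  have hreg := h (lv (Letter.T k)) (Or.inr (by rw [← he]; exact (e (Letter.T k)).2))
  simp only [padPair_eq] at hreg
  set P : Language (Option A × Option A) := {p | ∃ u ∈ ShortLexLanguage A r,
    ∃ v ∈ ShortLexLanguage A r, wordVal u * lv (Letter.T k) = wordVal v ∧ p = pad u v} with hP
  have hfin := hreg.finite_range_leftQuotient
  let s1 : ℕ → List A := fun n => (Letter.T (!k) :: rep k (n + 1) ++ [Letter.T k]).map e
  let s2 : ℕ → List A := fun n => (Letter.T k :: Letter.T (!k) :: rep k (n + 1)).map e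
  let r1 : ℕ → List A := fun n => (rep k (n + 1)).map e
  let r2 : ℕ → List A := fun n => (Letter.T k :: rep k (n + 1)).map e
  have hlen : ∀ n, (s1 n).length = (s2 n).length := by
    intro n; simp [s1, s2, rep]
  have hpad : ∀ n m, pad (s1 n ++ r1 m) (s2 n ++ r2 m) = pad (s1 n) (s2 n) ++ pad (r1 m) (r2 m) := by
    intro n m
    apply pad_append
    · intro h1; rw [hlen n] at h1; simp at h1
    · intro h1; rw [hlen n] at h1; simp at h1
  have hs1 : ∀ n m, s1 n ++ r1 m = (wh k (n + 1) (m + 1)).map e := by
    intro n m; simp [s1, r1, wh]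
  have hs2 : ∀ n m, s2 n ++ r2 m = (wg k (m + 1) (n + 1)).map e := by
    intro n m; simp [s2, r2, wg]
  have hmap : ¬ Function.Injective (fun n : ℕ =>
      (⟨P.leftQuotient (pad (s1 n) (s2 n)), ⟨_, rfl⟩⟩ : Set.range P.leftQuotient)) := by
    have := hfin.to_subtype
    exact not_injective_infinite_finite _
  rw [Function.Injective] at hmap
  push Not at hmap
  obtain ⟨n, m, hnm, hne⟩ := hmap
  have hq : P.leftQuotient (pad (s1 n) (s2 n)) = P.leftQuotient (pad (s1 m) (s2 m)) :=
    congrArg Subtype.val hnm
  have hm : pad (r1 m) (r2 m) ∈ P.leftQuotient (pad (s1 m) (s2 m)) := by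
    show pad (s1 m) (s2 m) ++ pad (r1 m) (r2 m) ∈ P
    rw [← hpad, hs1, hs2]
    refine ⟨_, wh_mem e he r k m, _, wg_mem e he r k hk m, ?_, rfl⟩
    rw [val_map e he, val_map e he]
    have : ev lv (wh k (m + 1) (m + 1) ++ [Letter.T k]) = ev lv (wg k (m + 1) (m + 1)) := by
      rw [ev_eq_iff, run_append, run_wh, run_wg, run_cons, run_nil, stp_S_T]
      rfl
    simpa using this
  rw [← hq] at hm
  obtain ⟨u, -, v, -, huv, hp⟩ := hm
  rw [← hpad, hs1, hs2] at hp
  obtain ⟨h1, h2⟩ := pad_inj hp
  rw [← h1, ← h2, val_map e he, val_map e he] at huv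
  have : ev lv (wh k (n + 1) (m + 1) ++ [Letter.T k]) = ev lv (wg k (m + 1) (n + 1)) := by
    simpa using huv
  rw [ev_eq_iff, run_append, run_wh, run_wg, run_cons, run_nil, stp_S_T] at this
  have h3 := congrArg (fun s => cc k s) this
  simp only [cc_S] at h3
  have h4 := congrArg Prod.fst h3
  simp at h4
  exact hne h4

end

theorem result : ∃ (G : Type) (_ : Group G) (A : Finset G),
    (∀ a ∈ A, a⁻¹ ∈ A) ∧ Subgroup.closure (A : Set G) = ⊤ ∧
    WeaklyGeodesicallyAutomatic A ∧
    ∀ r : LinearOrder A, ¬ IsAutomaticStructure A (ShortLexLanguage A r) := by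
  classical
  let A : Finset GG := Finset.univ.image lv
  let e : Letter ≃ A := Equiv.ofBijective (fun c => ⟨lv c, by simp [A]⟩) (by
    constructor
    · intro c c' h
      exact lv_inj (by simpa using h)
    · rintro ⟨x, hx⟩
      obtain ⟨c, -, hc⟩ := Finset.mem_image.1 hx
      exact ⟨c, Subtype.ext hc⟩)
  have he : ∀ c, (e c : GG) = lv c := fun c => rfl
  refine ⟨GG, inferInstance, A, ?_, ?_, wga e he, not_sl e he⟩
  · intro a ha
    obtain ⟨c, -, rfl⟩ := Finset.mem_image.1 ha
    rw [← lv_inv]
    exact Finset.mem_image_of_mem _ (Finset.mem_univ _)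
  · rw [eq_top_iff]
    intro g _
    obtain ⟨w, rfl⟩ := exists_word g
    induction w with
    | nil => simp
    | cons c w ih =>
      rw [ev_cons]
      refine Subgroup.mul_mem _ (Subgroup.subset_closure ?_) (ih trivial)
      simp [A]

end Pool.Agent.Results.MP_3489e4_al.WeakGeoNotShortLex
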